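import Pool.Agent.Helper425.PA.Defs

set_option autoImplicit false
set_option linter.unusedSectionVars false

universe u

namespace Pool.Agent.Helper425.PA

variable {M : Type u}

@[simp] lemma cons_zero (x : M) (v : ℕ → M) : cons x v 0 = x := rfl
@[simp] lemma cons_succ (x : M) (v : ℕ → M) (i : ℕ) : cons x v (i + 1) = v i := rfl

lemma cons_eta (w : ℕ → M) : cons (w 0) (fun i => w (i + 1)) = w := by
  funext i; cases i <;> rfl

section

variable [CommSemiring M] [LinearOrder M]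

lemma Tm.subst {f : (ℕ → M) → M} (hf : Tm f) {σ : ℕ → (ℕ → M) → M} (hσ : ∀ i, Tm (σ i)) :
    Tm fun v => f (fun i => σ i v) := by
  induction hf with
  | var i => exact hσ i
  | const c => exact Tm.const c
  | add _ _ h1 h2 => exact Tm.add h1 h2
  | mul _ _ h1 h2 => exact Tm.mul h1 h2

lemma Tm.tail {f : (ℕ → M) → M} (hf : Tm f) : Tm fun w => f (fun i => w (i + 1)) :=
  hf.subst (σ := fun i w => w (i + 1)) fun i => Tm.var (i + 1)

/-- the shifted substitution -/
def up (σ : ℕ → (ℕ → M) → M) : ℕ → (ℕ → M) → M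
  | 0 => fun w => w 0
  | i + 1 => fun w => σ i (fun j => w (j + 1))

lemma up_tm {σ : ℕ → (ℕ → M) → M} (hσ : ∀ i, Tm (σ i)) : ∀ i, Tm (up σ i)
  | 0 => Tm.var 0
  | i + 1 => (hσ i).tail

lemma up_cons (σ : ℕ → (ℕ → M) → M) (x : M) (v : ℕ → M) :
    (fun i => up σ i (cons x v)) = cons x (fun i => σ i v) := by
  funext i; cases i <;> rfl

/-! ### Delta0 -/

lemma Delta0.congr {P Q : (ℕ → M) → Prop} (h : Delta0 P) (hPQ : ∀ v, Q v ↔ P v) : Delta0 Q := by
  have : Q = P := funext fun v => propext (hPQ v)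
  rw [this]; exact h

lemma Delta0.subst {P : (ℕ → M) → Prop} (hP : Delta0 P) :
    ∀ {σ : ℕ → (ℕ → M) → M}, (∀ i, Tm (σ i)) → Delta0 fun v => P (fun i => σ i v) := by
  induction hP with
  | eq hf hg => exact fun hσ => Delta0.eq (hf.subst hσ) (hg.subst hσ)
  | lt hf hg => exact fun hσ => Delta0.lt (hf.subst hσ) (hg.subst hσ)
  | not _ ih => exact fun hσ => Delta0.not (ih hσ)
  | and _ _ ih1 ih2 => exact fun hσ => Delta0.and (ih1 hσ) (ih2 hσ)
  | @ball f P hf _ ih =>
    intro σ hσ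
    have := Delta0.ball (hf.subst hσ) (ih (up_tm hσ))
    refine this.congr fun v => ?_
    simp only [up_cons]

lemma Delta0.tail {P : (ℕ → M) → Prop} (hP : Delta0 P) : Delta0 fun w => P (fun i => w (i + 1)) :=
  hP.subst (σ := fun i w => w (i + 1)) fun i => Tm.var (i + 1)

lemma Delta0.ball' {f : (ℕ → M) → M} {R : M → (ℕ → M) → Prop} (hf : Tm f)
    (h : Delta0 fun w => R (w 0) (fun i => w (i + 1))) : Delta0 fun v => ∀ x, x < f v → R x v :=
  Delta0.ball hf h

lemma Delta0.or {P Q : (ℕ → M) → Prop} (hP : Delta0 P) (hQ : Delta0 Q) :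
    Delta0 fun v => P v ∨ Q v :=
  (hP.not.and hQ.not).not.congr fun v => by tauto

lemma Delta0.imp {P Q : (ℕ → M) → Prop} (hP : Delta0 P) (hQ : Delta0 Q) :
    Delta0 fun v => P v → Q v :=
  (hP.and hQ.not).not.congr fun v => by tauto

lemma Delta0.iff {P Q : (ℕ → M) → Prop} (hP : Delta0 P) (hQ : Delta0 Q) :
    Delta0 fun v => (P v ↔ Q v) :=
  ((hP.imp hQ).and (hQ.imp hP)).congr fun v => by tauto

lemma Delta0.le {f g : (ℕ → M) → M} (hf : Tm f) (hg : Tm g) : Delta0 fun v => f v ≤ g v :=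
  (Delta0.lt hg hf).not.congr fun v => by simp

lemma Delta0.bex' {f : (ℕ → M) → M} {R : M → (ℕ → M) → Prop} (hf : Tm f)
    (h : Delta0 fun w => R (w 0) (fun i => w (i + 1))) : Delta0 fun v => ∃ x, x < f v ∧ R x v :=
  (Delta0.ball' hf (R := fun x v => ¬ R x v) h.not).not.congr fun v => by push Not; rfl

/-! ### Arith -/

lemma Arith.congr {P Q : (ℕ → M) → Prop} (h : Arith P) (hPQ : ∀ v, Q v ↔ P v) : Arith Q := by
  have : Q = P := funext fun v => propext (hPQ v)
  rw [this]; exact h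

lemma Arith.subst {P : (ℕ → M) → Prop} (hP : Arith P) :
    ∀ {σ : ℕ → (ℕ → M) → M}, (∀ i, Tm (σ i)) → Arith fun v => P (fun i => σ i v) := by
  induction hP with
  | eq hf hg => exact fun hσ => Arith.eq (hf.subst hσ) (hg.subst hσ)
  | lt hf hg => exact fun hσ => Arith.lt (hf.subst hσ) (hg.subst hσ)
  | not _ ih => exact fun hσ => Arith.not (ih hσ)
  | and _ _ ih1 ih2 => exact fun hσ => Arith.and (ih1 hσ) (ih2 hσ)
  | @all P _ ih =>
    intro σ hσ
    have := Arith.all (ih (up_tm hσ))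
    refine this.congr fun v => ?_
    simp only [up_cons]

lemma Arith.tail {P : (ℕ → M) → Prop} (hP : Arith P) : Arith fun w => P (fun i => w (i + 1)) :=
  hP.subst (σ := fun i w => w (i + 1)) fun i => Tm.var (i + 1)

lemma Arith.all' {R : M → (ℕ → M) → Prop}
    (h : Arith fun w => R (w 0) (fun i => w (i + 1))) : Arith fun v => ∀ x, R x v :=
  Arith.all h

lemma Arith.ex' {R : M → (ℕ → M) → Prop}
    (h : Arith fun w => R (w 0) (fun i => w (i + 1))) : Arith fun v => ∃ x, R x v :=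
  (Arith.all' (R := fun x v => ¬ R x v) h.not).not.congr fun v => by push Not; rfl

lemma Arith.or {P Q : (ℕ → M) → Prop} (hP : Arith P) (hQ : Arith Q) :
    Arith fun v => P v ∨ Q v :=
  (hP.not.and hQ.not).not.congr fun v => by tauto

lemma Arith.imp {P Q : (ℕ → M) → Prop} (hP : Arith P) (hQ : Arith Q) :
    Arith fun v => P v → Q v :=
  (hP.and hQ.not).not.congr fun v => by tauto

lemma Arith.iff {P Q : (ℕ → M) → Prop} (hP : Arith P) (hQ : Arith Q) :
    Arith fun v => (P v ↔ Q v) :=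
  ((hP.imp hQ).and (hQ.imp hP)).congr fun v => by tauto

lemma Arith.le {f g : (ℕ → M) → M} (hf : Tm f) (hg : Tm g) : Arith fun v => f v ≤ g v :=
  (Arith.lt hg hf).not.congr fun v => by simp

lemma Arith.const (p : Prop) : Arith (fun _ : ℕ → M => p) := by
  by_cases hp : p
  · exact (Arith.eq (Tm.var 0) (Tm.var 0)).congr fun v => by simp [hp]
  · exact (Arith.eq (Tm.var 0) (Tm.var 0)).not.congr fun v => by simp [hp]

lemma Delta0.const (p : Prop) : Delta0 (fun _ : ℕ → M => p) := by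
  by_cases hp : p
  · exact (Delta0.eq (Tm.var 0) (Tm.var 0)).congr fun v => by simp [hp]
  · exact (Delta0.eq (Tm.var 0) (Tm.var 0)).not.congr fun v => by simp [hp]

lemma Delta0.arith {P : (ℕ → M) → Prop} (hP : Delta0 P) : Arith P := by
  induction hP with
  | eq hf hg => exact Arith.eq hf hg
  | lt hf hg => exact Arith.lt hf hg
  | not _ ih => exact ih.not
  | and _ _ ih1 ih2 => exact ih1.and ih2
  | @ball f P hf _ ih =>
    refine Arith.all' (R := fun x v => x < f v → P (cons x v)) ?_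
    refine (Arith.lt (Tm.var 0) hf.tail).imp (ih.congr fun w => ?_)
    rw [cons_eta]

/-! ### Sigma1 -/

lemma Sigma1.congr {P Q : (ℕ → M) → Prop} (h : Sigma1 P) (hPQ : ∀ v, Q v ↔ P v) : Sigma1 Q := by
  have : Q = P := funext fun v => propext (hPQ v)
  rw [this]; exact h

lemma Delta0.sigma1 {P : (ℕ → M) → Prop} (hP : Delta0 P) : Sigma1 P :=
  ⟨_, hP.tail, fun v => ⟨fun h => ⟨v 0, h⟩, fun ⟨_, h⟩ => h⟩⟩

lemma Sigma1.arith {P : (ℕ → M) → Prop} (hP : Sigma1 P) : Arith P := by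
  obtain ⟨Q, hQ, h⟩ := hP
  refine Arith.congr (Arith.ex' (R := fun x v => Q (cons x v)) (hQ.arith.congr fun w => ?_)) h
  rw [cons_eta]

lemma Sigma1.subst {P : (ℕ → M) → Prop} (hP : Sigma1 P) {σ : ℕ → (ℕ → M) → M}
    (hσ : ∀ i, Tm (σ i)) : Sigma1 fun v => P (fun i => σ i v) := by
  obtain ⟨Q, hQ, h⟩ := hP
  refine ⟨_, hQ.subst (up_tm hσ), fun v => ?_⟩
  simp only [h, up_cons]

lemma Sigma1.tail {P : (ℕ → M) → Prop} (hP : Sigma1 P) : Sigma1 fun w => P (fun i => w (i + 1)) :=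
  hP.subst (σ := fun i w => w (i + 1)) fun i => Tm.var (i + 1)

end

section

variable [CommSemiring M] [LinearOrder M] [IsStrictOrderedRing M] [CanonicallyOrderedAdd M]

lemma Sigma1.ex' {R : M → (ℕ → M) → Prop}
    (h : Sigma1 fun w => R (w 0) (fun i => w (i + 1))) : Sigma1 fun v => ∃ x, R x v := by
  obtain ⟨Q, hQ, h⟩ := h
  refine ⟨fun w => ∃ x, x < w 0 + 1 ∧ ∃ y, y < w 0 + 1 ∧
    Q (cons y (cons x fun i => w (i + 1))), ?_, fun v => ?_⟩
  · refine Delta0.bex' ((Tm.var 0).add (Tm.const 1)) (Delta0.bex' ((Tm.var 1).add (Tm.const 1)) ?_)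
    refine (hQ.subst (σ := fun i w => cons (w 0) (cons (w 1) fun i => w (i + 3)) i) ?_)
    intro i
    match i with
    | 0 => exact Tm.var 0
    | 1 => exact Tm.var 1
    | i + 2 => exact Tm.var (i + 3)
  · have key : ∀ x, R x v ↔ ∃ y, Q (cons y (cons x v)) := fun x => h (cons x v)
    constructor
    · rintro ⟨x, hx⟩
      obtain ⟨y, hy⟩ := (key x).1 hx
      refine ⟨x + y, x, ?_, y, ?_, hy⟩
      · exact lt_of_le_of_lt (le_self_add) (lt_add_one (x + y))
      · exact lt_of_le_of_lt (le_add_self) (lt_add_one (x + y))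
    · rintro ⟨_, x, _, y, _, hy⟩
      exact ⟨x, (key x).2 ⟨y, hy⟩⟩

lemma Sigma1.and {P Q : (ℕ → M) → Prop} (hP : Sigma1 P) (hQ : Sigma1 Q) :
    Sigma1 fun v => P v ∧ Q v := by
  obtain ⟨P', hP', hP⟩ := hP
  obtain ⟨Q', hQ', hQ⟩ := hQ
  have h1 : Sigma1 fun v : ℕ → M => ∃ x, ∃ y, P' (cons x v) ∧ Q' (cons y v) := by
    refine Sigma1.ex' (Sigma1.ex' (Delta0.sigma1 (Delta0.and ?_ ?_)))
    · refine (hP'.subst (σ := fun i w => cons (w 1) (fun i => w (i + 2)) i) ?_)
      intro i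
      match i with
      | 0 => exact Tm.var 1
      | i + 1 => exact Tm.var (i + 2)
    · refine (hQ'.subst (σ := fun i w => cons (w 0) (fun i => w (i + 2)) i) ?_)
      intro i
      match i with
      | 0 => exact Tm.var 0
      | i + 1 => exact Tm.var (i + 2)
  refine h1.congr fun v => ?_
  rw [hP, hQ]
  constructor
  · rintro ⟨⟨x, hx⟩, y, hy⟩; exact ⟨x, y, hx, hy⟩
  · rintro ⟨x, y, hx, hy⟩; exact ⟨⟨x, hx⟩, y, hy⟩

lemma Sigma1.or {P Q : (ℕ → M) → Prop} (hP : Sigma1 P) (hQ : Sigma1 Q) :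
    Sigma1 fun v => P v ∨ Q v := by
  obtain ⟨P', hP', hP⟩ := hP
  obtain ⟨Q', hQ', hQ⟩ := hQ
  refine ⟨_, hP'.or hQ', fun v => ?_⟩
  simp only [hP, hQ, exists_or]

lemma Sigma1.const (p : Prop) : Sigma1 (fun _ : ℕ → M => p) := (Delta0.const p).sigma1

end

section

variable [CommSemiring M] [LinearOrder M] [PeanoModel M]

lemma one_le_of_ne_zero (x : M) (hx : x ≠ 0) : 1 ≤ x := by
  have : ∀ x : M, x = 0 ∨ 1 ≤ x := by
    refine PeanoModel.induction _ ?_ ?_ ?_
    · exact (Arith.eq (Tm.var 0) (Tm.const 0)).or (Arith.le (Tm.const 1) (Tm.var 0))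
    · exact Or.inl rfl
    · intro x _; exact Or.inr le_add_self
  exact (this x).resolve_left hx

lemma lt_succ_iff' {x y : M} : x < y + 1 ↔ x ≤ y := by
  constructor
  · intro h
    by_contra hc
    push Not at hc
    obtain ⟨z, hz⟩ := exists_add_of_le hc.le
    have hz0 : z ≠ 0 := by rintro rfl; rw [hz] at hc; simp at hc
    have := one_le_of_ne_zero z hz0
    rw [hz] at h
    exact absurd (add_le_add_right this y) (not_le.2 h)
  · intro h; exact lt_of_le_of_lt h (lt_add_one y)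

lemma succ_le_iff' {x y : M} : x + 1 ≤ y ↔ x < y := by
  rw [← not_lt, lt_succ_iff', not_le]

lemma Sigma1.ball' {f : (ℕ → M) → M} {R : M → (ℕ → M) → Prop} (hf : Tm f)
    (h : Sigma1 fun w => R (w 0) (fun i => w (i + 1))) :
    Sigma1 fun v => ∀ x, x < f v → R x v := by
  obtain ⟨Q, hQ, h⟩ := h
  refine ⟨fun w => ∀ y, y < f (fun i => w (i + 1)) → ∃ x, x < w 0 ∧
    Q (cons x (cons y fun i => w (i + 1))), ?_, fun v => ?_⟩
  · refine Delta0.ball' hf.tail (Delta0.bex' (Tm.var 1) ?_)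
    refine (hQ.subst (σ := fun i w => cons (w 0) (cons (w 1) fun i => w (i + 3)) i) ?_)
    intro i
    match i with
    | 0 => exact Tm.var 0
    | 1 => exact Tm.var 1
    | i + 2 => exact Tm.var (i + 3)
  · have key : ∀ x, R x v ↔ ∃ y, Q (cons y (cons x v)) := fun x => h (cons x v)
    constructor
    · intro H
      have H' : ∀ y, y < f v → ∃ x, Q (cons x (cons y v)) := fun y hy => (key y).1 (H y hy)
      have main : ∀ b : M, b ≤ f v → ∃ z, ∀ y, y < b → ∃ x, x < z ∧ Q (cons x (cons y v)) := by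
        refine PeanoModel.induction _ ?_ ?_ ?_
        · refine (Arith.le (Tm.var 0) (Tm.const _)).imp (Arith.ex' (Arith.all'
            ((Arith.lt (Tm.var 0) (Tm.var 2)).imp (Arith.ex'
              ((Arith.lt (Tm.var 0) (Tm.var 2)).and ?_)))))
          refine (hQ.arith.subst (σ := fun i w => cons (w 0) (cons (w 1) v) i) ?_)
          intro i
          match i with
          | 0 => exact Tm.var 0
          | 1 => exact Tm.var 1
          | i + 2 => exact Tm.const _
        · intro _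
          exact ⟨0, fun y hy => absurd hy (not_lt.2 zero_le)⟩
        · intro b ih hb
          obtain ⟨z, hz⟩ := ih (le_trans (le_of_lt (lt_add_one b)) hb)
          obtain ⟨x, hx⟩ := H' b (lt_of_lt_of_le (lt_add_one b) hb)
          refine ⟨z + (x + 1), fun y hy => ?_⟩
          rcases lt_or_ge y b with h1 | h1
          · obtain ⟨x', hx', h2⟩ := hz y h1
            exact ⟨x', lt_of_lt_of_le hx' le_self_add, h2⟩
          · have hyb : y = b := le_antisymm (lt_succ_iff'.1 hy) h1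
            subst hyb
            exact ⟨x, lt_of_lt_of_le (lt_add_one x) le_add_self, hx⟩
      exact main (f v) le_rfl
    · rintro ⟨z, hz⟩ x hx
      obtain ⟨y, _, hy⟩ := hz x hx
      exact (key x).2 ⟨y, hy⟩

end

end Pool.Agent.Helper425.PA
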