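import Pool.Agent.Helper425.PA.Calc

/-! Cardinality of the class of binary Sigma-one relations (proved by helper537) -/

set_option autoImplicit false
set_option linter.unusedSectionVars false

universe u

namespace Pool.Agent.Helper425.PA

variable {M : Type u}

section TARGET

open Cardinal

variable [CommSemiring M] [LinearOrder M]

/-- one step of a stack machine -/
def cB_step : (M ⊕ ℕ) → List ((ℕ → M) → M) × List ((ℕ → M) → Prop) →
    List ((ℕ → M) → M) × List ((ℕ → M) → Prop)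
  | Sum.inl c, (sf, sp) => ((fun _ => c) :: sf, sp)
  | Sum.inr 0, (g :: f :: sf, sp) => ((fun v => f v + g v) :: sf, sp)
  | Sum.inr 1, (g :: f :: sf, sp) => ((fun v => f v * g v) :: sf, sp)
  | Sum.inr 2, (g :: f :: sf, sp) => (sf, (fun v => f v = g v) :: sp)
  | Sum.inr 3, (g :: f :: sf, sp) => (sf, (fun v => f v < g v) :: sp)
  | Sum.inr 4, (sf, P :: sp) => (sf, (fun v => ¬ P v) :: sp)
  | Sum.inr 5, (sf, Q :: P :: sp) => (sf, (fun v => P v ∧ Q v) :: sp)
  | Sum.inr 6, (sf, P :: sp) => (sf, (fun v => ∀ x, P (cons x v)) :: sp)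
  | Sum.inr (i + 7), (sf, sp) => ((fun v => v i) :: sf, sp)
  | _, s => s

/-- run the stack machine -/
def cB_run (l : List (M ⊕ ℕ)) (s : List ((ℕ → M) → M) × List ((ℕ → M) → Prop)) :
    List ((ℕ → M) → M) × List ((ℕ → M) → Prop) :=
  l.foldl (fun s t => cB_step t s) s

lemma cB_run_append (l l' : List (M ⊕ ℕ)) (s : List ((ℕ → M) → M) × List ((ℕ → M) → Prop)) :
    cB_run (l ++ l') s = cB_run l' (cB_run l s) := by
  simp only [cB_run, List.foldl_append]

lemma cB_tm {f : (ℕ → M) → M} (hf : Tm f) :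
    ∃ l : List (M ⊕ ℕ), ∀ sf sp, cB_run l (sf, sp) = (f :: sf, sp) := by
  induction hf with
  | var i => exact ⟨[Sum.inr (i + 7)], fun sf sp => rfl⟩
  | const c => exact ⟨[Sum.inl c], fun sf sp => rfl⟩
  | add _ _ h1 h2 =>
    obtain ⟨l1, h1⟩ := h1
    obtain ⟨l2, h2⟩ := h2
    refine ⟨l1 ++ l2 ++ [Sum.inr 0], fun sf sp => ?_⟩
    rw [cB_run_append, cB_run_append, h1, h2]
    rfl
  | mul _ _ h1 h2 =>
    obtain ⟨l1, h1⟩ := h1
    obtain ⟨l2, h2⟩ := h2
    refine ⟨l1 ++ l2 ++ [Sum.inr 1], fun sf sp => ?_⟩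
    rw [cB_run_append, cB_run_append, h1, h2]
    rfl

lemma cB_arith {P : (ℕ → M) → Prop} (hP : Arith P) :
    ∃ l : List (M ⊕ ℕ), ∀ sf sp, cB_run l (sf, sp) = (sf, P :: sp) := by
  induction hP with
  | eq hf hg =>
    obtain ⟨l1, h1⟩ := cB_tm hf
    obtain ⟨l2, h2⟩ := cB_tm hg
    refine ⟨l1 ++ l2 ++ [Sum.inr 2], fun sf sp => ?_⟩
    rw [cB_run_append, cB_run_append, h1, h2]
    rfl
  | lt hf hg =>
    obtain ⟨l1, h1⟩ := cB_tm hf
    obtain ⟨l2, h2⟩ := cB_tm hg
    refine ⟨l1 ++ l2 ++ [Sum.inr 3], fun sf sp => ?_⟩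
    rw [cB_run_append, cB_run_append, h1, h2]
    rfl
  | not _ ih =>
    obtain ⟨l, h⟩ := ih
    refine ⟨l ++ [Sum.inr 4], fun sf sp => ?_⟩
    rw [cB_run_append, h]
    cases sf <;> rfl
  | and _ _ ih1 ih2 =>
    obtain ⟨l1, h1⟩ := ih1
    obtain ⟨l2, h2⟩ := ih2
    refine ⟨l1 ++ l2 ++ [Sum.inr 5], fun sf sp => ?_⟩
    rw [cB_run_append, cB_run_append, h1, h2]
    cases sf <;> rfl
  | all _ ih =>
    obtain ⟨l, h⟩ := ih
    refine ⟨l ++ [Sum.inr 6], fun sf sp => ?_⟩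
    rw [cB_run_append, h]
    cases sf <;> rfl

/-- TARGET -/
theorem card_sigma1 [Infinite M] :
    #{V : M → M → Prop // Sigma1 (fun v : ℕ → M => V (v 0) (v 1))} ≤ #M := by
  have h1 : ∀ V : {V : M → M → Prop // Sigma1 (fun v : ℕ → M => V (v 0) (v 1))},
      ∃ l : List (M ⊕ ℕ), ∀ sf sp, cB_run l (sf, sp) =
        (sf, (fun v : ℕ → M => V.1 (v 0) (v 1)) :: sp) :=
    fun V => cB_arith V.2.arith
  choose F hF using h1
  have hinj : Function.Injective F := by
    intro V V' h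
    have e1 := hF V [] []
    rw [h, hF V' [] []] at e1
    have e2 : (fun v : ℕ → M => V'.1 (v 0) (v 1)) = (fun v : ℕ → M => V.1 (v 0) (v 1)) := by
      have := congrArg Prod.snd e1
      exact (List.cons.inj this).1
    apply Subtype.ext
    funext x y
    have := congrFun e2 (fun i => if i = 0 then x else y)
    simpa using this.symm
  have h2 : #{V : M → M → Prop // Sigma1 (fun v : ℕ → M => V (v 0) (v 1))} ≤ #(List (M ⊕ ℕ)) :=
    Cardinal.mk_le_of_injective hinj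
  have h3 : #(List (M ⊕ ℕ)) = #M := by
    rw [Cardinal.mk_list_eq_mk, Cardinal.mk_sum]
    simp only [Cardinal.lift_uzero, Cardinal.mk_nat, Cardinal.lift_aleph0]
    exact Cardinal.add_eq_left (Cardinal.aleph0_le_mk M) (Cardinal.aleph0_le_mk M)
  rw [h3] at h2
  exact h2

end TARGET

end Pool.Agent.Helper425.PA
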