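import Pool.Agent.Helper425.PA.Calc

set_option autoImplicit false
set_option linter.unusedSectionVars false

universe u

namespace Pool.Agent.Helper425.PA

variable {M : Type u} [CommSemiring M] [LinearOrder M] [PeanoModel M]

lemma pr_inj {x y x' y' : M} (h : pr x y = pr x' y') : x = x' ∧ y = y' := by
  unfold pr at h
  have key : ∀ {x y x' y' : M}, (x + y) * (x + y) + x = (x' + y') * (x' + y') + x' →
      ¬ (x + y < x' + y') := by
    intro x y x' y' h hlt
    have h1 : x + y + 1 ≤ x' + y' := succ_le_iff'.2 hlt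
    have h2 : (x + y + 1) * (x + y + 1) ≤ (x' + y') * (x' + y') := mul_le_mul' h1 h1
    have h3 : (x + y + 1) * (x + y + 1) = (x + y) * (x + y) + x + (x + y + y + 1) := by ring
    have h4 : (x + y) * (x + y) + x + (x + y + y + 1) ≤ (x + y) * (x + y) + x := by
      rw [← h3, h]
      exact h2.trans le_self_add
    have h5 : (x + y) * (x + y) + x < (x + y) * (x + y) + x + (x + y + y + 1) := by
      have : (0 : M) < x + y + y + 1 := lt_of_le_of_lt zero_le (lt_add_one _)
      exact lt_add_of_pos_right _ this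
    exact absurd h4 (not_le.2 h5)
  have hs : x + y = x' + y' := le_antisymm (not_lt.1 (key h.symm)) (not_lt.1 (key h))
  rw [hs] at h
  have hx : x = x' := add_left_cancel h
  subst hx
  exact ⟨rfl, add_left_cancel hs⟩

lemma le_pr_left (x y : M) : x ≤ pr x y := le_add_self

lemma le_pr_right (x y : M) : y ≤ pr x y := by
  unfold pr
  rcases eq_or_ne y 0 with rfl | hy
  · exact zero_le
  · have h1 : 1 ≤ x + y := (one_le_of_ne_zero y hy).trans le_add_self
    calc y ≤ x + y := le_add_self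
      _ = (x + y) * 1 := (mul_one _).symm
      _ ≤ (x + y) * (x + y) := mul_le_mul' le_rfl h1
      _ ≤ _ := le_self_add

lemma Tm.pr {f g : (ℕ → M) → M} (hf : Tm f) (hg : Tm g) : Tm fun v => pr (f v) (g v) :=
  ((hf.add hg).mul (hf.add hg)).add hf

lemma Delta0.dvd {f g : (ℕ → M) → M} (hf : Tm f) (hg : Tm g) :
    Delta0 (fun v => f v ∣ g v) := by
  have h : Delta0 (fun v : ℕ → M => ∃ q, q < g v + 1 ∧ g v = f v * q) :=
    Delta0.bex' (hg.add (Tm.const 1)) (Delta0.eq hg.tail (hf.tail.mul (Tm.var 0)))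
  refine h.congr fun v => ?_
  constructor
  · rintro ⟨q, hq⟩
    rcases eq_or_ne (f v) 0 with h0 | h0
    · refine ⟨0, lt_of_le_of_lt zero_le (lt_add_one _), ?_⟩
      rw [hq, h0, zero_mul, zero_mul]
    · refine ⟨q, lt_succ_iff'.2 ?_, hq⟩
      calc q = 1 * q := (one_mul q).symm
        _ ≤ f v * q := mul_le_mul' (one_le_of_ne_zero _ h0) le_rfl
        _ = g v := hq.symm
  · rintro ⟨q, _, hq⟩; exact ⟨q, hq⟩

lemma Delta0.mem {f g : (ℕ → M) → M} (hf : Tm f) (hg : Tm g) :
    Delta0 (fun v => Mem (f v) (g v)) := by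
  have h : Delta0 (fun v : ℕ → M => ∃ b, b < g v + 1 ∧ ∃ c, c < g v + 1 ∧ ∃ d, d < g v + 1 ∧
      (g v = pr b (pr c d) ∧ f v < b ∧ (1 + (f v + 1) * d) ∣ c)) := by
    refine Delta0.bex' (hg.add (Tm.const 1)) (Delta0.bex' (hg.tail.add (Tm.const 1))
      (Delta0.bex' (hg.tail.tail.add (Tm.const 1)) (Delta0.and ?_ (Delta0.and ?_ ?_))))
    · exact Delta0.eq hg.tail.tail.tail ((Tm.var 2).pr ((Tm.var 1).pr (Tm.var 0)))
    · exact Delta0.lt hf.tail.tail.tail (Tm.var 2)
    · exact Delta0.dvd ((Tm.const 1).add ((hf.tail.tail.tail.add (Tm.const 1)).mul (Tm.var 0)))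
        (Tm.var 1)
  refine h.congr fun v => ?_
  constructor
  · rintro ⟨b, c, d, hk, hx, hd⟩
    refine ⟨b, lt_succ_iff'.2 ?_, c, lt_succ_iff'.2 ?_, d, lt_succ_iff'.2 ?_, hk, hx, hd⟩
    · rw [hk]; exact le_pr_left _ _
    · rw [hk]; exact (le_pr_left _ _).trans (le_pr_right _ _)
    · rw [hk]; exact (le_pr_right _ _).trans (le_pr_right _ _)
  · rintro ⟨b, _, c, _, d, _, hk, hx, hd⟩
    exact ⟨b, c, d, hk, hx, hd⟩

lemma Mem.lt {x k : M} (h : Mem x k) : x < k := by
  obtain ⟨b, c, d, hk, hx, _⟩ := h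
  rw [hk]
  exact lt_of_lt_of_le hx (le_pr_left _ _)

lemma dvd_of_add_mul {a u v : M} (h : a ∣ u + a * v) : a ∣ u := by
  obtain ⟨w, hw⟩ := h
  rcases le_total v w with h1 | h1
  · obtain ⟨z, rfl⟩ := exists_add_of_le h1
    refine ⟨z, ?_⟩
    have : a * v + u = a * v + a * z := by rw [add_comm (a * v) u, hw, mul_add]
    exact add_left_cancel this
  · have h2 : u + a * v ≤ a * v := by rw [hw]; exact mul_le_mul' le_rfl h1
    have h3 : u = 0 := by
      by_contra hu
      have : a * v < u + a * v := lt_add_of_pos_left _ (pos_iff_ne_zero.2 hu)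
      exact absurd h2 (not_le.2 this)
    rw [h3]; exact dvd_zero a

/-- the modulus -/
def md (d x : M) : M := 1 + (x + 1) * d

lemma md_coprime {b d x y c : M} (hd : ∀ z, z ≤ b → 0 < z → z ∣ d) (hx : x < b) (hy : y < b)
    (hxy : x ≠ y) (h : md d x ∣ c * md d y) : md d x ∣ c := by
  unfold md at *
  rcases lt_or_gt_of_ne hxy with hlt | hlt
  · obtain ⟨z, rfl⟩ := exists_add_of_le hlt.le
    have hz : 0 < z := by
      rw [pos_iff_ne_zero]; rintro rfl; exact hxy (add_zero x).symm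
    obtain ⟨e, rfl⟩ := hd z (le_add_self.trans hy.le) hz
    obtain ⟨w, hw⟩ := h
    have key : c + (1 + (x + 1) * (z * e)) * (((x + 1) * (x + z + 1) * e) * c) =
        (1 + (x + 1) * (z * e)) * c +
          ((x + 1) * (x + 1) * e) * (c * (1 + (x + z + 1) * (z * e))) := by ring
    rw [hw] at key
    refine dvd_of_add_mul (v := ((x + 1) * (x + z + 1) * e) * c) ?_
    rw [key]
    refine ⟨c + (x + 1) * (x + 1) * e * w, ?_⟩
    ring
  · obtain ⟨z, rfl⟩ := exists_add_of_le hlt.le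
    have hz : 0 < z := by
      rw [pos_iff_ne_zero]; rintro rfl; exact hxy (add_zero y)
    obtain ⟨e, rfl⟩ := hd z (le_add_self.trans hx.le) hz
    obtain ⟨w, hw⟩ := h
    have key : c + ((y + z + 1) * (y + z + 1) * e) * (c * (1 + (y + 1) * (z * e))) =
        (1 + (y + z + 1) * (z * e)) * ((1 + (y + z + 1) * (y + 1) * e) * c) := by ring
    rw [hw] at key
    refine dvd_of_add_mul (v := ((y + z + 1) * (y + z + 1) * e) * w) ?_
    refine ⟨(1 + (y + z + 1) * (y + 1) * e) * c, ?_⟩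
    rw [← key]
    ring

lemma exists_multiple (b : M) : ∃ d : M, d ≠ 0 ∧ ∀ z, z ≤ b → 0 < z → z ∣ d := by
  revert b
  refine PeanoModel.induction _ ?_ ?_ ?_
  · refine Arith.ex' ((Arith.eq (Tm.var 0) (Tm.const 0)).not.and (Arith.all'
      ((Arith.le (Tm.var 0) (Tm.var 2)).imp ((Arith.lt (Tm.const 0) (Tm.var 0)).imp
        (Delta0.dvd (Tm.var 0) (Tm.var 1)).arith))))
  · exact ⟨1, one_ne_zero, fun z hz hz0 => absurd hz0 (not_lt.2 hz)⟩
  · rintro b ⟨d, hd0, hd⟩
    refine ⟨d * (b + 1), mul_ne_zero hd0 (by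
      have : (0 : M) < b + 1 := lt_of_le_of_lt zero_le (lt_add_one _)
      exact this.ne'), fun z hz hz0 => ?_⟩
    rcases lt_or_ge z (b + 1) with h | h
    · exact (hd z (lt_succ_iff'.1 h) hz0).mul_right _
    · rw [le_antisymm hz h]; exact dvd_mul_left _ _

/-- bounded comprehension -/
lemma exists_code (P : M → Prop) (hP : Arith (fun v : ℕ → M => P (v 0))) (b : M)
    (hb : ∀ x, P x → x < b) : ∃ k, ∀ x, Mem x k ↔ P x := by
  obtain ⟨d, hd0, hd⟩ := exists_multiple b
  have main : ∀ n : M, n ≤ b → ∃ c : M, ∀ x, x < b → (md d x ∣ c ↔ P x ∧ x < n) := by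
    refine PeanoModel.induction _ ?_ ?_ ?_
    · refine (Arith.le (Tm.var 0) (Tm.const b)).imp (Arith.ex' (Arith.all'
        ((Arith.lt (Tm.var 0) (Tm.const b)).imp (Arith.iff ?_ (Arith.and ?_ ?_)))))
      · exact (Delta0.dvd ((Tm.const 1).add (((Tm.var 0).add (Tm.const 1)).mul (Tm.const d)))
          (Tm.var 1)).arith
      · exact hP.subst (σ := fun i w => w i) fun i => Tm.var i
      · exact Arith.lt (Tm.var 0) (Tm.var 2)
    · intro _
      refine ⟨1, fun x _ => ?_⟩
      constructor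
      · rintro ⟨w, hw⟩
        exfalso
        have hx : 1 < md d x := by
          unfold md
          refine lt_add_of_pos_right _ ?_
          refine pos_iff_ne_zero.2 (mul_ne_zero ?_ hd0)
          exact (lt_of_le_of_lt zero_le (lt_add_one x) : (0 : M) < x + 1).ne'
        have hw0 : w ≠ 0 := by rintro rfl; simp at hw
        have : md d x * 1 ≤ md d x * w := mul_le_mul' le_rfl (one_le_of_ne_zero w hw0)
        rw [← hw, mul_one] at this
        exact absurd this (not_le.2 hx)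
      · rintro ⟨_, h⟩; exact absurd h (not_lt.2 zero_le)
    · intro n ih hn
      have hnb : n < b := succ_le_iff'.1 hn
      obtain ⟨c, hc⟩ := ih hnb.le
      by_cases hPn : P n
      · refine ⟨c * md d n, fun x hx => ?_⟩
        rcases eq_or_ne x n with rfl | hxn
        · exact ⟨fun _ => ⟨hPn, lt_add_one x⟩, fun _ => dvd_mul_left _ _⟩
        · constructor
          · intro h
            obtain ⟨h1, h2⟩ := (hc x hx).1 (md_coprime hd hx hnb hxn h)
            exact ⟨h1, h2.trans (lt_add_one n)⟩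
          · rintro ⟨h1, h2⟩
            exact ((hc x hx).2 ⟨h1, lt_of_le_of_ne (lt_succ_iff'.1 h2) hxn⟩).mul_right _
      · refine ⟨c, fun x hx => ?_⟩
        rw [hc x hx]
        constructor
        · rintro ⟨h1, h2⟩; exact ⟨h1, h2.trans (lt_add_one n)⟩
        · rintro ⟨h1, h2⟩
          refine ⟨h1, lt_of_le_of_ne (lt_succ_iff'.1 h2) ?_⟩
          rintro rfl; exact hPn h1
  obtain ⟨c, hc⟩ := main b le_rfl
  refine ⟨pr b (pr c d), fun x => ?_⟩
  constructor
  · rintro ⟨b', c', d', hk, hx, hdv⟩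
    obtain ⟨rfl, h2⟩ := pr_inj hk
    obtain ⟨rfl, rfl⟩ := pr_inj h2
    exact ((hc x hx).1 hdv).1
  · intro hx
    exact ⟨b, c, d, rfl, hb x hx, (hc x (hb x hx)).2 ⟨hx, hb x hx⟩⟩

end Pool.Agent.Helper425.PA
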