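import Mathlib

/-! Transfinite construction (proved by helper814) -/

set_option autoImplicit false

universe u

namespace Pool.Agent.Helper425.PA

open Cardinal

/-- TARGET: transfinite construction of a set all of whose pairs are compatible -/
theorem construct {R α : Type u} (κ : Cardinal.{u}) (hκ : ℵ₀ < κ) (hR : #R ≤ κ)
    (C : α → α → Prop) (Good : R → Set α → Prop)
    (mono : ∀ (r : R) (G G' : Set α), Good r G → G ⊆ G' → Good r G')
    (step : ∀ (r : R) (G : Set α), (∀ a ∈ G, ∀ b ∈ G, C a b) → #G < κ →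
      ∃ F : Set α, F.Finite ∧ (∀ a ∈ G ∪ F, ∀ b ∈ G ∪ F, C a b) ∧ Good r (G ∪ F)) :
    ∃ G : Set α, (∀ a ∈ G, ∀ b ∈ G, C a b) ∧ ∀ r, Good r G := by
  classical
  obtain ⟨s, wo, hs⟩ := Cardinal.exists_ord_eq R
  have hwf : WellFounded s := wo.wf
  -- the property of the finite set chosen at stage `x`
  let P : R → Set α → Set α → Prop := fun x G F =>
    F.Finite ∧ (∀ a ∈ G ∪ F, ∀ b ∈ G ∪ F, C a b) ∧ Good x (G ∪ F)
  let Hc : R → Set α → Set α := fun x G => if h : ∃ F, P x G F then h.choose else ∅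
  have hHc : ∀ x G, (∃ F, P x G F) → P x G (Hc x G) := by
    intro x G h
    simp only [Hc]
    rw [dif_pos h]
    exact h.choose_spec
  have hHfin : ∀ x G, (Hc x G).Finite := by
    intro x G
    by_cases h : ∃ F, P x G F
    · exact (hHc x G h).1
    · simp only [Hc]
      rw [dif_neg h]
      exact Set.finite_empty
  obtain ⟨F, hF⟩ : ∃ F : R → Set α, ∀ x, F x = Hc x {a | ∃ y, s y x ∧ a ∈ F y} := by
    refine ⟨hwf.fix (fun x ih => Hc x {a | ∃ y, ∃ h : s y x, a ∈ ih y h}), fun x => ?_⟩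
    rw [WellFounded.fix_eq]
    congr 1
    ext a
    simp only [Set.mem_ofPred_eq, exists_prop]
  let G : R → Set α := fun x => {a | ∃ y, s y x ∧ a ∈ F y}
  have hFG : ∀ x, F x = Hc x (G x) := hF
  have hFfin : ∀ x, (F x).Finite := fun x => by rw [hFG]; exact hHfin _ _
  have hcard : ∀ x, #(G x) < κ := by
    intro x
    have h1 : G x = ⋃ y : {y // s y x}, F y := by
      ext a
      simp only [G, Set.mem_ofPred_eq, Set.mem_iUnion, Subtype.exists, exists_prop]
    have h2 : #(G x) ≤ #{y // s y x} * ℵ₀ := by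
      rw [h1]
      refine (Cardinal.mk_iUnion_le_sum_mk).trans ?_
      refine (Cardinal.sum_le_sum _ (fun _ => ℵ₀) fun y => ?_).trans ?_
      · exact ((hFfin y).lt_aleph0).le
      · rw [Cardinal.sum_const', ]
    have h3 : #{y // s y x} < κ := by
      have := Cardinal.card_typein_lt x hs
      rw [Ordinal.card_typein] at this
      exact lt_of_lt_of_le this hR
    exact lt_of_le_of_lt h2 (Cardinal.mul_lt_of_lt hκ.le h3 hκ)
  have hcompG : ∀ x, (∀ y, s y x → ∀ a ∈ G y ∪ F y, ∀ b ∈ G y ∪ F y, C a b) →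
      ∀ a ∈ G x, ∀ b ∈ G x, C a b := by
    rintro x ih a ⟨y1, hy1, ha⟩ b ⟨y2, hy2, hb⟩
    rcases trichotomous_of s y1 y2 with h | h | h
    · exact ih y2 hy2 a (Or.inl ⟨y1, h, ha⟩) b (Or.inr hb)
    · subst h
      exact ih y1 hy1 a (Or.inr ha) b (Or.inr hb)
    · exact ih y1 hy1 a (Or.inr ha) b (Or.inl ⟨y2, h, hb⟩)
  have hmain : ∀ x, (∀ a ∈ G x ∪ F x, ∀ b ∈ G x ∪ F x, C a b) := by
    intro x
    induction x using hwf.induction with
    | _ x ih =>
      have h1 := hcompG x ih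
      have h2 := hHc x (G x) (step x (G x) h1 (hcard x))
      rw [← hFG] at h2
      exact h2.2.1
  have hgood : ∀ x, Good x (G x ∪ F x) := by
    intro x
    have h1 := hcompG x (fun y _ => hmain y)
    have h2 := hHc x (G x) (step x (G x) h1 (hcard x))
    rw [← hFG] at h2
    exact h2.2.2
  refine ⟨⋃ x, F x, ?_, fun r => mono r _ _ (hgood r) ?_⟩
  · intro a ha b hb
    obtain ⟨y1, ha⟩ := Set.mem_iUnion.1 ha
    obtain ⟨y2, hb⟩ := Set.mem_iUnion.1 hb
    rcases trichotomous_of s y1 y2 with h | h | h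
    · exact hmain y2 a (Or.inl ⟨y1, h, ha⟩) b (Or.inr hb)
    · subst h
      exact hmain y1 a (Or.inr ha) b (Or.inr hb)
    · exact hmain y1 a (Or.inr ha) b (Or.inl ⟨y2, h, hb⟩)
  · rintro a (⟨y, _, ha⟩ | ha)
    · exact Set.mem_iUnion.2 ⟨y, ha⟩
    · exact Set.mem_iUnion.2 ⟨r, ha⟩

end Pool.Agent.Helper425.PA
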