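import Pool.Agent.Helper425.PA.Std

/-! Infinite M-finite sets have at least continuum many elements (proved by helper79) -/

set_option autoImplicit false
set_option linter.unusedSectionVars false

universe u

namespace Pool.Agent.Helper425.PA

variable {M : Type u}

section TARGET

open Cardinal

variable [CommSemiring M] [LinearOrder M] [PeanoModel M]

/-- at least `n` elements of `El k` below `x` -/
def Bel (k : M) : ℕ → M → Prop
  | 0, _ => True
  | n + 1, x => ∃ y, y < x ∧ Mem y k ∧ Bel k n y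

/-- at least `n` elements of `El k` above `x` -/
def Abv (k : M) : ℕ → M → Prop
  | 0, _ => True
  | n + 1, x => ∃ y, x < y ∧ Mem y k ∧ Abv k n y

lemma arith_Bel (k : M) (n : ℕ) : Arith fun v : ℕ → M => Bel k n (v 0) := by
  induction n with
  | zero => exact Arith.const True
  | succ n ih =>
    exact Arith.ex' (R := fun y v => y < v 0 ∧ Mem y k ∧ Bel k n y)
      ((Arith.lt (Tm.var 0) (Tm.var 1)).and
        ((Delta0.mem (Tm.var 0) (Tm.const k)).arith.and ih))

lemma arith_Abv (k : M) (n : ℕ) : Arith fun v : ℕ → M => Abv k n (v 0) := by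
  induction n with
  | zero => exact Arith.const True
  | succ n ih =>
    exact Arith.ex' (R := fun y v => v 0 < y ∧ Mem y k ∧ Abv k n y)
      ((Arith.lt (Tm.var 1) (Tm.var 0)).and
        ((Delta0.mem (Tm.var 0) (Tm.const k)).arith.and ih))

lemma Bel_iff (k : M) (n : ℕ) (x : M) :
    Bel k n x ↔ ∃ S : Finset M, S.card = n ∧ ∀ y ∈ S, Mem y k ∧ y < x := by
  induction n generalizing x with
  | zero => exact ⟨fun _ => ⟨∅, rfl, by simp⟩, fun _ => trivial⟩
  | succ n ih =>
    constructor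
    · rintro ⟨y, hy, hm, hb⟩
      obtain ⟨S, hS, hS'⟩ := (ih y).1 hb
      refine ⟨insert y S, ?_, ?_⟩
      · rw [Finset.card_insert_of_notMem (fun h => lt_irrefl _ (hS' y h).2), hS]
      · intro z hz
        rcases Finset.mem_insert.1 hz with rfl | h
        · exact ⟨hm, hy⟩
        · exact ⟨(hS' z h).1, (hS' z h).2.trans hy⟩
    · rintro ⟨S, hS, hS'⟩
      have hne : S.Nonempty := by rw [← Finset.card_pos, hS]; omega
      refine ⟨S.max' hne, (hS' _ (S.max'_mem hne)).2, (hS' _ (S.max'_mem hne)).1,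
        (ih _).2 ⟨S.erase (S.max' hne), ?_, ?_⟩⟩
      · rw [Finset.card_erase_of_mem (S.max'_mem hne), hS]; rfl
      · intro y hy
        exact ⟨(hS' y (Finset.mem_of_mem_erase hy)).1, Finset.lt_max'_of_mem_erase_max' _ hne hy⟩

lemma Abv_iff (k : M) (n : ℕ) (x : M) :
    Abv k n x ↔ ∃ S : Finset M, S.card = n ∧ ∀ y ∈ S, Mem y k ∧ x < y := by
  induction n generalizing x with
  | zero => exact ⟨fun _ => ⟨∅, rfl, by simp⟩, fun _ => trivial⟩
  | succ n ih =>
    constructor
    · rintro ⟨y, hy, hm, hb⟩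
      obtain ⟨S, hS, hS'⟩ := (ih y).1 hb
      refine ⟨insert y S, ?_, ?_⟩
      · rw [Finset.card_insert_of_notMem (fun h => lt_irrefl _ (hS' y h).2), hS]
      · intro z hz
        rcases Finset.mem_insert.1 hz with rfl | h
        · exact ⟨hm, hy⟩
        · exact ⟨(hS' z h).1, hy.trans (hS' z h).2⟩
    · rintro ⟨S, hS, hS'⟩
      have hne : S.Nonempty := by rw [← Finset.card_pos, hS]; omega
      refine ⟨S.min' hne, (hS' _ (S.min'_mem hne)).2, (hS' _ (S.min'_mem hne)).1,
        (ih _).2 ⟨S.erase (S.min' hne), ?_, ?_⟩⟩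
      · rw [Finset.card_erase_of_mem (S.min'_mem hne), hS]; rfl
      · intro y hy
        exact ⟨(hS' y (Finset.mem_of_mem_erase hy)).1, Finset.min'_lt_of_mem_erase_min' _ hne hy⟩

lemma Bel_mono (k : M) {m n : ℕ} (h : m ≤ n) {x : M} (hx : Bel k n x) : Bel k m x := by
  obtain ⟨S, hS, hS'⟩ := (Bel_iff k n x).1 hx
  obtain ⟨T, hT, hTc⟩ := Finset.exists_subset_card_eq (hS ▸ h : m ≤ S.card)
  exact (Bel_iff k m x).2 ⟨T, hTc, fun y hy => hS' y (hT hy)⟩

lemma Abv_mono (k : M) {m n : ℕ} (h : m ≤ n) {x : M} (hx : Abv k n x) : Abv k m x := by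
  obtain ⟨S, hS, hS'⟩ := (Abv_iff k n x).1 hx
  obtain ⟨T, hT, hTc⟩ := Finset.exists_subset_card_eq (hS ▸ h : m ≤ S.card)
  exact (Abv_iff k m x).2 ⟨T, hTc, fun y hy => hS' y (hT hy)⟩

lemma exists_mid (k : M) (hk : (El k).Infinite) (n : ℕ) : ∃ x, Bel k n x ∧ Abv k n x := by
  obtain ⟨t, ht, htc⟩ := hk.exists_subset_card_eq (2 * n + 1)
  let e := t.orderEmbOfFin htc
  have he : ∀ i, e i ∈ t := fun i => t.orderEmbOfFin_mem htc i
  refine ⟨e ⟨n, by omega⟩, (Bel_iff k n _).2 ?_, (Abv_iff k n _).2 ?_⟩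
  · refine ⟨(Finset.univ : Finset (Fin n)).map
      ⟨fun i => e ⟨i.1, by have := i.2; omega⟩, fun i j hij => ?_⟩, by simp, ?_⟩
    · have h := congrArg Fin.val (e.injective hij)
      exact Fin.ext h
    · intro y hy
      obtain ⟨i, -, rfl⟩ := Finset.mem_map.1 hy
      refine ⟨ht (he _), e.strictMono ?_⟩
      exact i.2
  · refine ⟨(Finset.univ : Finset (Fin n)).map
      ⟨fun i => e ⟨n + 1 + i.1, by have := i.2; omega⟩, fun i j hij => ?_⟩, by simp, ?_⟩
    · have h := congrArg Fin.val (e.injective hij)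
      have h' : n + 1 + i.1 = n + 1 + j.1 := h
      exact Fin.ext (by omega)
    · intro y hy
      obtain ⟨i, -, rfl⟩ := Finset.mem_map.1 hy
      refine ⟨ht (he _), e.strictMono ?_⟩
      show n < n + 1 + i.1
      omega

lemma infinite_of_forall_card {s : Set M} (h : ∀ n : ℕ, ∃ S : Finset M, S.card = n ∧ ∀ y ∈ S, y ∈ s) :
    s.Infinite := by
  intro hfin
  obtain ⟨S, hS, hS'⟩ := h (hfin.toFinset.card + 1)
  have : S ⊆ hfin.toFinset := fun y hy => hfin.mem_toFinset.2 (hS' y hy)
  have := Finset.card_le_card this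
  omega

lemma split_infinite (hsat : CountablySaturated M) (k : M) (hk : (El k).Infinite) :
    ∃ k₀ k₁ : M, (El k₀).Infinite ∧ (El k₁).Infinite ∧ El k₀ ⊆ El k ∧ El k₁ ⊆ El k ∧
      ∀ x, Mem x k₀ → ¬ Mem x k₁ := by
  obtain ⟨d, hd⟩ := hsat (fun n x => Bel k n x ∧ Abv k n x)
    (fun n => (arith_Bel k n).and (arith_Abv k n))
    (fun n => by
      obtain ⟨x, h1, h2⟩ := exists_mid k hk n
      exact ⟨x, fun i hi => ⟨Bel_mono k hi.le h1, Abv_mono k hi.le h2⟩⟩)
  obtain ⟨k₀, hk₀⟩ := exists_code (fun y => Mem y k ∧ y < d)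
    ((Delta0.mem (Tm.var 0) (Tm.const k)).arith.and (Arith.lt (Tm.var 0) (Tm.const d))) k
    (fun x hx => hx.1.lt)
  obtain ⟨k₁, hk₁⟩ := exists_code (fun y => Mem y k ∧ d < y)
    ((Delta0.mem (Tm.var 0) (Tm.const k)).arith.and (Arith.lt (Tm.const d) (Tm.var 0))) k
    (fun x hx => hx.1.lt)
  refine ⟨k₀, k₁, ?_, ?_, fun x hx => ((hk₀ x).1 hx).1, fun x hx => ((hk₁ x).1 hx).1, ?_⟩
  · refine infinite_of_forall_card fun n => ?_
    obtain ⟨S, hS, hS'⟩ := (Bel_iff k n d).1 (hd n).1
    exact ⟨S, hS, fun y hy => (hk₀ y).2 (hS' y hy)⟩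
  · refine infinite_of_forall_card fun n => ?_
    obtain ⟨S, hS, hS'⟩ := (Abv_iff k n d).1 (hd n).2
    exact ⟨S, hS, fun y hy => (hk₁ y).2 (hS' y hy)⟩
  · intro x h0 h1
    exact lt_asymm ((hk₀ x).1 h0).2 ((hk₁ x).1 h1).2

/-- TARGET: in a countably saturated model every infinite `M`-finite set has at least continuum
many elements -/
theorem continuum_le_of_infinite (hsat : CountablySaturated M) (k : M)
    (hk : (El k).Infinite) : 𝔠 ≤ #(El k) := by
  classical
  have hsp : ∀ t : {k : M // (El k).Infinite}, ∃ c : Bool → {k : M // (El k).Infinite},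
      (∀ b, El (c b).1 ⊆ El t.1) ∧ ∀ b b', b ≠ b' → ∀ x, Mem x (c b).1 → ¬ Mem x (c b').1 := by
    rintro ⟨k, hk⟩
    obtain ⟨k₀, k₁, h0, h1, hs0, hs1, hd⟩ := split_infinite hsat k hk
    refine ⟨fun b => if b then ⟨k₁, h1⟩ else ⟨k₀, h0⟩, ?_, ?_⟩
    · intro b
      cases b
      · simpa using hs0
      · simpa using hs1
    · intro b b' hbb x
      cases b <;> cases b'
      · exact absurd rfl hbb
      · simpa using hd x
      · simpa using fun h h' => hd x h' h
      · exact absurd rfl hbb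
  choose c hcs hcd using hsp
  let node : (ℕ → Bool) → ℕ → {k : M // (El k).Infinite} := fun f n =>
    Nat.rec (motive := fun _ => {k : M // (El k).Infinite}) ⟨k, hk⟩ (fun i t => c t (f i)) n
  have node0 : ∀ f, node f 0 = ⟨k, hk⟩ := fun f => rfl
  have nodeS : ∀ f n, node f (n + 1) = c (node f n) (f n) := fun f n => rfl
  have hanti : ∀ f n m, n ≤ m → El (node f m).1 ⊆ El (node f n).1 := by
    intro f n m hnm
    induction hnm with
    | refl => exact fun x hx => hx
    | step _ ih =>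
      rw [nodeS]
      exact (hcs _ _).trans ih
  have hbr : ∀ f : ℕ → Bool, ∃ x, ∀ n, Mem x (node f n).1 := by
    intro f
    refine hsat (fun n x => Mem x (node f n).1)
      (fun n => (Delta0.mem (Tm.var 0) (Tm.const (node f n).1)).arith) fun n => ?_
    obtain ⟨x, hx⟩ := (node f n).2.nonempty
    exact ⟨x, fun i hi => hanti f i n hi.le hx⟩
  choose g hg using hbr
  have hgk : ∀ f, g f ∈ El k := fun f => hg f 0
  have hagree : ∀ (f f' : ℕ → Bool) n, (∀ i < n, f i = f' i) → node f n = node f' n := by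
    intro f f' n
    induction n with
    | zero => intro _; rfl
    | succ n ih =>
      intro h
      rw [nodeS, nodeS, ih (fun i hi => h i (by omega)), h n (by omega)]
  have hinj : Function.Injective (fun f : ℕ → Bool => (⟨g f, hgk f⟩ : El k)) := by
    intro f f' hff
    have hff' : g f = g f' := congrArg Subtype.val hff
    by_contra hne
    have hex : ∃ n, f n ≠ f' n := by
      by_contra hcon
      push Not at hcon
      exact hne (funext hcon)
    have h1 := Nat.find_spec hex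
    have h2 : ∀ i < Nat.find hex, f i = f' i := fun i hi => not_not.1 (Nat.find_min hex hi)
    have h3 := hagree f f' _ h2
    have h4 := hg f (Nat.find hex + 1)
    have h5 := hg f' (Nat.find hex + 1)
    rw [nodeS] at h4 h5
    rw [← hff', ← h3] at h5
    exact hcd _ _ _ h1 _ h4 h5
  have hcard := Cardinal.lift_mk_le_lift_mk_of_injective hinj
  have h2 : #(ℕ → Bool) = 𝔠 := by
    rw [← Cardinal.power_def, Cardinal.mk_bool, Cardinal.mk_nat, Cardinal.two_power_aleph0]
  rw [h2, Cardinal.lift_continuum] at hcard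
  simpa using hcard

end TARGET

end Pool.Agent.Helper425.PA
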