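import Pool.Agent.Helper425.PA.Lit

/-! Computing the cut destroys countable directedness (proved by helper441) -/

set_option autoImplicit false
set_option linter.unusedSectionVars false

universe u

namespace Pool.Agent.Helper425.PA

section TARGET

open Cardinal

variable {M : Type u} [CommSemiring M] [LinearOrder M] [PeanoModel M]

/-- TARGET: a set computing the standard cut has a countable family of correct infos without
upper bound -/
theorem not_SD_of_ered (hns : ∃ m : M, m ∉ omega M) {A : Set M}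
    (h : ERed (Lit (omega M)) (Lit A)) : ¬ SD (Lit A) := by
  intro hSD
  obtain ⟨V, hV, hred⟩ := h
  have hq : ∀ n : ℕ, ∃ q : M, ∀ x, Mem x q ↔ x = (n : M) + n + 1 :=
    fun n => exists_code_single _
  choose q hq using hq
  have hqL : ∀ n, El (q n) ⊆ Lit (omega M) := by
    intro n x hx
    have hx' : x = (n : M) + n + 1 := (hq n x).1 hx
    rw [hx']
    exact odd_mem_lit.2 (natCast_mem_omega n)
  have hp : ∀ n, ∃ p, El p ⊆ Lit A ∧ V (q n) p := fun n => (hred (q n)).1 (hqL n)
  choose p hpA hVp using hp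
  obtain ⟨r, hrA, hr⟩ := hSD p hpA
  have hAr : Arith (fun v : ℕ → M => ∃ q' p', (∀ x, Mem x q' ↔ x = v 0 + v 0 + 1) ∧
      (∀ x, Mem x p' → Mem x r) ∧ V q' p') := by
    refine Arith.ex' (Arith.ex' ?_)
    refine Arith.and ?_ (Arith.and ?_ ?_)
    · exact Arith.all' ((Arith.mem (Tm.var 0) (Tm.var 2)).iff
        (Arith.eq (Tm.var 0) (((Tm.var 3).add (Tm.var 3)).add (Tm.const 1))))
    · exact Arith.all' ((Arith.mem (Tm.var 0) (Tm.var 1)).imp
        (Arith.mem (Tm.var 0) (Tm.const r)))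
    · exact hV.arith.sub2 (Tm.var 1) (Tm.var 0)
  obtain ⟨m, hm, q', p', h1, h2, h3⟩ := overspill hns (P := fun m => ∃ q' p',
    (∀ x, Mem x q' ↔ x = m + m + 1) ∧ (∀ x, Mem x p' → Mem x r) ∧ V q' p') hAr
    (fun n => ⟨q n, p n, hq n, fun x hx => hr n hx, hVp n⟩)
  apply hm
  have h4 : El q' ⊆ Lit (omega M) := (hred q').2 ⟨p', fun x hx => hrA (h2 x hx), h3⟩
  exact odd_mem_lit.1 (h4 ((h1 _).2 rfl))

end TARGET

end Pool.Agent.Helper425.PA
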