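import Pool.Agent.Helper425.PA.Lit

/-! Lack of countable directedness computes the cut (proved by helper301) -/

set_option autoImplicit false
set_option linter.unusedSectionVars false

universe u

namespace Pool.Agent.Helper425.PA

section TARGET

open Cardinal

variable {M : Type u} [CommSemiring M] [LinearOrder M] [PeanoModel M]

/-- TARGET: if some countable family of correct infos of `A` has no upper bound then `A`
computes the standard cut -/
theorem ered_of_not_SD (hsat : CountablySaturated M) {A : Set M} (h : ¬ SD (Lit A)) :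
    ERed (Lit (omega M)) (Lit A) := by
  unfold SD at h
  push Not at h
  obtain ⟨p, hpA, hpq⟩ := h
  choose un hun using exists_code_union (M := M)
  let p' : ℕ → M := fun n => Nat.rec (p 0) (fun k r => un r (p (k + 1))) n
  have hp'0 : p' 0 = p 0 := rfl
  have hp'S : ∀ k, p' (k + 1) = un (p' k) (p (k + 1)) := fun k => rfl
  have hle : ∀ n x, Mem x (p n) → Mem x (p' n) := by
    intro n x hx
    cases n with
    | zero => exact hx
    | succ k => rw [hp'S, hun]; exact Or.inr hx
  have hstep : ∀ n x, Mem x (p' n) → Mem x (p' (n + 1)) := by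
    intro n x hx
    rw [hp'S, hun]; exact Or.inl hx
  have hmono' : ∀ i j : ℕ, i ≤ j → ∀ x, Mem x (p' i) → Mem x (p' j) := by
    intro i j hij x hx
    induction hij with
    | refl => exact hx
    | step _ ih => exact hstep _ _ ih
  have hp'A : ∀ n x, Mem x (p' n) → x ∈ Lit A := by
    intro n
    induction n with
    | zero => intro x hx; exact hpA 0 hx
    | succ k ih =>
      intro x hx
      rw [hp'S, hun] at hx
      rcases hx with hx | hx
      · exact ih x hx
      · exact hpA (k + 1) hx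
  obtain ⟨s, b, hb, hs, hmono⟩ := exists_seq_mono hsat p' hmono'
  have claimA : ∀ c : M, c < b → c ∉ omega M → ∃ l, Mem (pr c l) s ∧ l ∉ Lit A := by
    intro c hc hcω
    by_contra hcon
    push Not at hcon
    obtain ⟨k, hk⟩ := exists_code (fun x => Mem (pr c x) s)
      (Arith.mem ((Tm.const c).pr (Tm.var 0)) (Tm.const s)) s
      (fun x hx => lt_of_le_of_lt (le_pr_right c x) hx.lt)
    obtain ⟨n, hn⟩ := hpq k (fun x hx => hcon x ((hk x).1 hx))
    apply hn
    intro x hx
    refine (hk x).2 ?_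
    exact hmono (n : M) c (nat_lt n hcω).le hc x ((hs n x).2 (hle n x hx))
  refine ⟨fun q h => ∃ n, ∃ m, (n < b ∧ m < b ∧ (∀ x, x < s → (Mem (pr n x) s → Mem x h)) ∧
    (∀ x, x < q → ((Mem (x + x + 1) q → x ≤ n) ∧ (Mem (x + x) q → m ≤ x)))) ∧
    ∃ l, ∃ l', ∃ x, Mem (pr m l) s ∧ Mem l' h ∧
      ((l = x + x ∧ l' = x + x + 1) ∨ (l = x + x + 1 ∧ l' = x + x)), ?_, fun q => ?_⟩
  · refine Sigma1.ex' (Sigma1.ex' (Sigma1.and (Delta0.sigma1 ?_)
      (Sigma1.ex' (Sigma1.ex' (Sigma1.ex' (Delta0.sigma1 ?_))))))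
    · refine (Delta0.lt (Tm.var 1) (Tm.const b)).and ((Delta0.lt (Tm.var 0) (Tm.const b)).and
        (Delta0.and ?_ ?_))
      · exact Delta0.ball' (Tm.const s) ((Delta0.mem ((Tm.var 2).pr (Tm.var 0)) (Tm.const s)).imp
          (Delta0.mem (Tm.var 0) (Tm.var 4)))
      · refine Delta0.ball' (Tm.var 2) (Delta0.and ?_ ?_)
        · exact (Delta0.mem (((Tm.var 0).add (Tm.var 0)).add (Tm.const 1)) (Tm.var 3)).imp
            (Delta0.le (Tm.var 0) (Tm.var 2))
        · exact (Delta0.mem ((Tm.var 0).add (Tm.var 0)) (Tm.var 3)).imp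
            (Delta0.le (Tm.var 1) (Tm.var 0))
    · refine (Delta0.mem ((Tm.var 3).pr (Tm.var 2)) (Tm.const s)).and
        ((Delta0.mem (Tm.var 1) (Tm.var 6)).and (Delta0.or ?_ ?_))
      · exact (Delta0.eq (Tm.var 2) ((Tm.var 0).add (Tm.var 0))).and
          (Delta0.eq (Tm.var 1) (((Tm.var 0).add (Tm.var 0)).add (Tm.const 1)))
      · exact (Delta0.eq (Tm.var 2) (((Tm.var 0).add (Tm.var 0)).add (Tm.const 1))).and
          (Delta0.eq (Tm.var 1) ((Tm.var 0).add (Tm.var 0)))
  · constructor
    · intro hq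
      obtain ⟨n, hn⟩ := underspill (exists_nonstd hsat)
        (P := fun n => ∀ x, Mem (x + x + 1) q → x ≤ n)
        (Arith.all' ((Arith.mem (((Tm.var 0).add (Tm.var 0)).add (Tm.const 1)) (Tm.const q)).imp
          (Arith.le (Tm.var 0) (Tm.var 1)))) (by
          intro m hm x hx
          obtain ⟨k, rfl⟩ := odd_mem_lit.1 (hq hx)
          exact (nat_lt k hm).le)
      obtain ⟨m, hm, hmb, hmP⟩ := overspill_lt hb
        (P := fun m => ∀ x, Mem (x + x) q → m ≤ x)
        (Arith.all' ((Arith.mem ((Tm.var 0).add (Tm.var 0)) (Tm.const q)).imp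
          (Arith.le (Tm.var 1) (Tm.var 0)))) (by
          intro k x hx
          exact (nat_lt k (even_mem_lit.1 (hq hx))).le)
      obtain ⟨l, hl, hlA⟩ := claimA m hmb hm
      obtain ⟨x, hx⟩ := even_or_odd l
      have key : ∃ l', l' ∈ Lit A ∧
          ((l = x + x ∧ l' = x + x + 1) ∨ (l = x + x + 1 ∧ l' = x + x)) := by
        rcases hx with hx | hx
        · refine ⟨x + x + 1, ?_, Or.inl ⟨hx, rfl⟩⟩
          rw [odd_mem_lit]
          by_contra hxA
          exact hlA (by rw [hx, even_mem_lit]; exact hxA)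
        · refine ⟨x + x, ?_, Or.inr ⟨hx, rfl⟩⟩
          rw [even_mem_lit]
          intro hxA
          exact hlA (by rw [hx, odd_mem_lit]; exact hxA)
      obtain ⟨l', hl'A, hll⟩ := key
      obtain ⟨k, hk⟩ := exists_code_single l'
      refine ⟨un (p' n) k, ?_, (n : M), m, ⟨nat_lt n hb, hmb, ?_, ?_⟩, l, l', x, hl, ?_, hll⟩
      · intro y hy
        rcases (hun (p' n) k y).1 hy with hy | hy
        · exact hp'A n y hy
        · rw [(hk y).1 hy]; exact hl'A
      · intro y _ hy
        exact (hun _ _ _).2 (Or.inl ((hs n y).1 hy))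
      · intro y _
        exact ⟨hn y, hmP y⟩
      · exact (hun _ _ _).2 (Or.inr ((hk _).2 rfl))
    · rintro ⟨h, hhA, n, m, ⟨hnb, hmb, hn, hnm⟩, l, l', x, hl, hl', hll⟩
      have hnω : n ∈ omega M := by
        by_contra hnω
        obtain ⟨y, hy, hyA⟩ := claimA n hnb hnω
        exact hyA (hhA (hn y (lt_of_le_of_lt (le_pr_right n y) hy.lt) hy))
      have hmω : m ∉ omega M := by
        rintro ⟨k, rfl⟩
        have h1 : l ∈ Lit A := hp'A k l ((hs k l).1 hl)
        have h2 : l' ∈ Lit A := hhA hl'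
        rcases hll with ⟨rfl, rfl⟩ | ⟨rfl, rfl⟩
        · exact (even_mem_lit.1 h1) (odd_mem_lit.1 h2)
        · exact (even_mem_lit.1 h2) (odd_mem_lit.1 h1)
      intro y hy
      have hy' : Mem y q := hy
      obtain ⟨z, rfl | rfl⟩ := even_or_odd y
      · rw [even_mem_lit]
        intro hz
        have hzq : z < q := lt_of_le_of_lt (le_double z) hy'.lt
        exact hmω (mem_omega_of_le ((hnm z hzq).2 hy') hz)
      · rw [odd_mem_lit]
        have hzq : z < q := lt_of_le_of_lt ((le_double z).trans le_self_add) hy'.lt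
        exact mem_omega_of_le ((hnm z hzq).1 hy') hnω

end TARGET

end Pool.Agent.Helper425.PA
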