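import Pool.Agent.Helper425.PA.Lit

/-! Decoding (proved by helper537) -/

set_option autoImplicit false
set_option linter.unusedSectionVars false

universe u

namespace Pool.Agent.Helper425.PA

section TARGET

open Cardinal

variable {M : Type u} [CommSemiring M] [LinearOrder M] [PeanoModel M]

/-- TARGET: decoding -/
theorem decode {A X Y Z : Set M} (h : ∀ q, El q ⊆ Lit A ↔ ∃ t, pr q t ∈ X ∧ pr q t ∈ Y)
    (hX : ERed (Lit X) (Lit Z)) (hY : ERed (Lit Y) (Lit Z)) : ERed (Lit A) (Lit Z) := by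
  obtain ⟨V1, hV1, h1⟩ := hX
  obtain ⟨V2, hV2, h2⟩ := hY
  refine ⟨fun q p => ∃ t k p1 p2, (Mem (pr q t + pr q t + 1) k ∧
    ∀ x, Mem x k → x = pr q t + pr q t + 1) ∧ V1 k p1 ∧ V2 k p2 ∧
    (∀ x, Mem x p1 → Mem x p) ∧ (∀ x, Mem x p2 → Mem x p), ?_, fun q => ?_⟩
  · refine Sigma1.ex' (Sigma1.ex' (Sigma1.ex' (Sigma1.ex' (Sigma1.and
      (Delta0.sigma1 (Delta0.and ?_ ?_)) (Sigma1.and ?_ (Sigma1.and ?_
        (Delta0.sigma1 (Delta0.and ?_ ?_))))))))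
    · exact Delta0.mem ((((Tm.var 4).pr (Tm.var 3)).add ((Tm.var 4).pr (Tm.var 3))).add
        (Tm.const 1)) (Tm.var 2)
    · exact Delta0.ballMem (Tm.var 2) (Delta0.eq (Tm.var 0)
        ((((Tm.var 5).pr (Tm.var 4)).add ((Tm.var 5).pr (Tm.var 4))).add (Tm.const 1)))
    · exact Sigma1.sub2 hV1 (Tm.var 2) (Tm.var 1)
    · exact Sigma1.sub2 hV2 (Tm.var 2) (Tm.var 0)
    · exact Delta0.ballMem (Tm.var 1) (Delta0.mem (Tm.var 0) (Tm.var 6))
    · exact Delta0.ballMem (Tm.var 0) (Delta0.mem (Tm.var 0) (Tm.var 6))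
  · rw [h]
    constructor
    · rintro ⟨t, htX, htY⟩
      obtain ⟨k, hk⟩ := exists_code_single (pr q t + pr q t + 1)
      have hkX : El k ⊆ Lit X := by
        intro x hx
        rw [(hk x).1 hx]
        exact odd_mem_lit.2 htX
      have hkY : El k ⊆ Lit Y := by
        intro x hx
        rw [(hk x).1 hx]
        exact odd_mem_lit.2 htY
      obtain ⟨p1, hp1, hv1⟩ := (h1 k).1 hkX
      obtain ⟨p2, hp2, hv2⟩ := (h2 k).1 hkY
      obtain ⟨p, hp⟩ := exists_code_union p1 p2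
      refine ⟨p, ?_, t, k, p1, p2, ⟨(hk _).2 rfl, fun x hx => (hk x).1 hx⟩, hv1, hv2,
        fun x hx => (hp x).2 (Or.inl hx), fun x hx => (hp x).2 (Or.inr hx)⟩
      intro x hx
      rcases (hp x).1 hx with h3 | h3
      · exact hp1 h3
      · exact hp2 h3
    · rintro ⟨p, hp, t, k, p1, p2, ⟨hk1, hk2⟩, hv1, hv2, hs1, hs2⟩
      refine ⟨t, ?_, ?_⟩
      · exact odd_mem_lit.1 ((h1 k).2 ⟨p1, fun x hx => hp (hs1 x hx), hv1⟩ hk1)
      · exact odd_mem_lit.1 ((h2 k).2 ⟨p2, fun x hx => hp (hs2 x hx), hv2⟩ hk1)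

end TARGET

end Pool.Agent.Helper425.PA
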