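import Mathlib

/-!
Turing reducibility for arbitrary subsets of a model of Peano arithmetic: definitions.
-/

set_option autoImplicit false

universe u

namespace Pool.Agent.Helper425.PA

/-- `cons x v` is the assignment `x, v 0, v 1, v 2, ...` -/
def cons {M : Type u} (x : M) (v : ℕ → M) : ℕ → M
  | 0 => x
  | i + 1 => v i

section Definability

variable {M : Type u} [CommSemiring M] [LinearOrder M]

/-- The functions of an assignment `v : ℕ → M` that are values of terms of the language
`0, 1, +, *` with parameters from `M`. -/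
inductive Tm : ((ℕ → M) → M) → Prop
  | var (i : ℕ) : Tm fun v => v i
  | const (c : M) : Tm fun _ => c
  | add {f g : (ℕ → M) → M} : Tm f → Tm g → Tm fun v => f v + g v
  | mul {f g : (ℕ → M) → M} : Tm f → Tm g → Tm fun v => f v * g v

/-- The `Δ₀` relations with parameters from `M`: bounded quantifiers only. -/
inductive Delta0 : ((ℕ → M) → Prop) → Prop
  | eq {f g : (ℕ → M) → M} : Tm f → Tm g → Delta0 fun v => f v = g v
  | lt {f g : (ℕ → M) → M} : Tm f → Tm g → Delta0 fun v => f v < g v
  | not {P : (ℕ → M) → Prop} : Delta0 P → Delta0 fun v => ¬ P v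
  | and {P Q : (ℕ → M) → Prop} : Delta0 P → Delta0 Q → Delta0 fun v => P v ∧ Q v
  | ball {f : (ℕ → M) → M} {P : (ℕ → M) → Prop} : Tm f → Delta0 P →
      Delta0 fun v => ∀ x, x < f v → P (cons x v)

/-- The `Σ₁` relations with parameters from `M`: one unbounded existential quantifier in front of
a `Δ₀` relation. -/
def Sigma1 (P : (ℕ → M) → Prop) : Prop :=
  ∃ Q : (ℕ → M) → Prop, Delta0 Q ∧ ∀ v, P v ↔ ∃ x, Q (cons x v)

/-- The relations that are first order definable with parameters from `M` in the structure
`(M, 0, 1, +, *, <)`. -/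
inductive Arith : ((ℕ → M) → Prop) → Prop
  | eq {f g : (ℕ → M) → M} : Tm f → Tm g → Arith fun v => f v = g v
  | lt {f g : (ℕ → M) → M} : Tm f → Tm g → Arith fun v => f v < g v
  | not {P : (ℕ → M) → Prop} : Arith P → Arith fun v => ¬ P v
  | and {P Q : (ℕ → M) → Prop} : Arith P → Arith Q → Arith fun v => P v ∧ Q v
  | all {P : (ℕ → M) → Prop} : Arith P → Arith fun v => ∀ x, P (cons x v)

variable (M)

/-- `M` is a model of Peano arithmetic: the nonnegative part of a discretely ordered ring (the
ordered semiring axioms, with subtraction) that satisfies induction for all definable sets. -/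
class PeanoModel : Prop extends IsStrictOrderedRing M, CanonicallyOrderedAdd M where
  induction : ∀ P : M → Prop, Arith (fun v : ℕ → M => P (v 0)) →
    P 0 → (∀ x, P x → P (x + 1)) → ∀ x, P x

/-- `M` is countably saturated: countably many definable sets (with parameters) such that any
finitely many of them have a common element have a common element. -/
def CountablySaturated : Prop :=
  ∀ P : ℕ → M → Prop, (∀ n, Arith (fun v : ℕ → M => P n (v 0))) →
    (∀ n, ∃ x, ∀ i, i < n → P i x) → ∃ x, ∀ n, P n x

variable {M}

/-- The pair of `x` and `y` as an element of `M` (this function is injective). -/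
def pr (x y : M) : M := (x + y) * (x + y) + x

/-- `Mem x k`: the element `x` belongs to the set coded by `k`. If `k` is the triple
`(b, (c, d))` the coded set consists of the `x < b` such that `1 + (x + 1) d` divides `c` (the
coding of Goedel's beta function); if `k` is not a triple, the coded set is empty. -/
def Mem (x k : M) : Prop :=
  ∃ b c d : M, k = pr b (pr c d) ∧ x < b ∧ (1 + (x + 1) * d) ∣ c

/-- The set coded by `k`; the sets of this form are the `M`-finite sets. -/
def El (k : M) : Set M := {x | Mem x k}

/-- The standard part of `M`. -/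
def omega (M : Type u) [CommSemiring M] : Set M := Set.range (Nat.cast : ℕ → M)

/-- Turing reducibility between arbitrary subsets of `M`. -/
def TRed (A B : Set M) : Prop :=
  ∃ W : M → M → M → M → Prop, Sigma1 (fun v : ℕ → M => W (v 0) (v 1) (v 2) (v 3)) ∧
    ∀ K : M,
      (El K ⊆ A ↔ ∃ H₀ H₁ : M, El H₀ ⊆ B ∧ El H₁ ⊆ Bᶜ ∧ W K 1 H₀ H₁) ∧
      (El K ⊆ Aᶜ ↔ ∃ H₀ H₁ : M, El H₀ ⊆ B ∧ El H₁ ⊆ Bᶜ ∧ W K 0 H₀ H₁)

end Definability

end Pool.Agent.Helper425.PA
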