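import Pool.Agent.Helper425.PA.Std

/-! Hitting sets of definable hypergraphs of finite rank (proved by helper600) -/

set_option autoImplicit false
set_option linter.unusedSectionVars false

universe u

namespace Pool.Agent.Helper425.PA

variable {M : Type u}

section TARGET

open Cardinal

variable [CommSemiring M] [LinearOrder M] [PeanoModel M]

private lemma prT {f g : (ℕ → M) → M} (hf : Tm f) (hg : Tm g) : Tm (fun v => pr (f v) (g v)) :=
  ((hf.add hg).mul (hf.add hg)).add hf

/-- `s` codes `n` pairwise disjoint members of `H` -/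
private def Gd (H : M → Prop) (s n : M) : Prop :=
  (∀ i, i < n → ∃ k, H k ∧ ∀ x, (Mem (pr i x) s ↔ Mem x k)) ∧
  ∀ i, i < n → ∀ j, j < n → ¬ i = j → ∀ x, ¬ (Mem (pr i x) s ∧ Mem (pr j x) s)

private lemma Gd_arith {H : M → Prop} (hH : Arith (fun v : ℕ → M => H (v 0))) :
    Arith (fun v : ℕ → M => ∃ s, Gd H s (v 0)) := by
  unfold Gd
  refine Arith.ex' (Arith.and ?_ ?_)
  · refine Arith.all' (Arith.imp (Arith.lt (Tm.var 0) (Tm.var 2)) (Arith.ex' (Arith.and ?_ ?_)))
    · exact hH
    · refine Arith.all' (Arith.iff ?_ ?_)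
      · exact (Delta0.mem (prT (Tm.var 2) (Tm.var 0)) (Tm.var 3)).arith
      · exact (Delta0.mem (Tm.var 0) (Tm.var 1)).arith
  · refine Arith.all' (Arith.imp (Arith.lt (Tm.var 0) (Tm.var 2)) (Arith.all' (Arith.imp
      (Arith.lt (Tm.var 0) (Tm.var 3)) (Arith.imp (Arith.eq (Tm.var 1) (Tm.var 0)).not
      (Arith.all' (Arith.not (Arith.and ?_ ?_)))))))
    · exact (Delta0.mem (prT (Tm.var 2) (Tm.var 0)) (Tm.var 3)).arith
    · exact (Delta0.mem (prT (Tm.var 1) (Tm.var 0)) (Tm.var 3)).arith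

private lemma std_lt (n : ℕ) : ∀ x : M, x < (n : M) → ∃ i : ℕ, i < n ∧ x = (i : M) := by
  induction n with
  | zero =>
    intro x hx
    rw [Nat.cast_zero] at hx
    exact absurd hx (not_lt.2 zero_le)
  | succ n ih =>
    intro x hx
    rw [Nat.cast_succ, lt_succ_iff'] at hx
    rcases hx.lt_or_eq with h | h
    · obtain ⟨i, hi, rfl⟩ := ih x h
      exact ⟨i, by omega, rfl⟩
    · exact ⟨n, by omega, h⟩

private lemma not_all_std (hns : ∃ m : M, m ∉ omega M) (T : M → Prop)
    (hT : Arith (fun v : ℕ → M => T (v 0))) (hno : ∀ m, m ∉ omega M → ¬ T m) :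
    ∃ n : ℕ, ¬ T (n : M) := by
  by_contra hcon
  push Not at hcon
  obtain ⟨m, hm⟩ := hns
  have hall : ∀ x, T x := by
    refine PeanoModel.induction T hT ?_ ?_
    · have := hcon 0
      rwa [Nat.cast_zero] at this
    · intro x hx
      have hxo : x ∈ omega M := by
        by_contra h
        exact hno x h hx
      obtain ⟨n, rfl⟩ := hxo
      have := hcon (n + 1)
      rwa [Nat.cast_succ] at this
  exact hno m hm (hall m)

private lemma no_big {κ : Cardinal.{u}} (hκ : ∀ m : M, m ∉ omega M → κ ≤ #(Set.Iio m))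
    {H : M → Prop} {Z : Set M} (hZ : #Z < κ) (hit : ∀ k, H k → ∃ z ∈ Z, Mem z k)
    (m : M) (hm : m ∉ omega M) : ¬ ∃ s, Gd H s m := by
  rintro ⟨s, hs1, hs2⟩
  have hz : ∀ i : Set.Iio m, ∃ z : Z, Mem (pr (i : M) (z : M)) s := by
    rintro ⟨i, hi⟩
    obtain ⟨k, hk, hkx⟩ := hs1 i hi
    obtain ⟨z, hzZ, hzk⟩ := hit k hk
    exact ⟨⟨z, hzZ⟩, (hkx z).2 hzk⟩
  choose f hf using hz
  have hinj : Function.Injective f := by
    intro i j hij
    by_contra hne
    have hne' : ¬ (i : M) = (j : M) := fun h => hne (Subtype.ext h)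
    refine hs2 i i.2 j j.2 hne' (f i : M) ⟨hf i, ?_⟩
    rw [hij]
    exact hf j
  have h1 : #(Set.Iio m) ≤ #Z := Cardinal.mk_le_of_injective hinj
  exact absurd (lt_of_lt_of_le hZ (hκ m hm)) (not_lt.2 h1)

private lemma extend_Gd {H : M → Prop} {s n k : M} (hs : Gd H s n) (hk : H k)
    (hdis : ∀ i, i < n → ∀ x, Mem (pr i x) s → ¬ Mem x k) : ∃ s', Gd H s' (n + 1) := by
  obtain ⟨s', hs'⟩ := exists_code
    (fun y => (Mem y s ∧ ∃ i, i < n ∧ ∃ x, y = pr i x) ∨ ∃ x, Mem x k ∧ y = pr n x) (by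
      refine Arith.or (Arith.and ?_ (Arith.ex' (Arith.and (Arith.lt (Tm.var 0) (Tm.const n))
        (Arith.ex' (Arith.eq (Tm.var 2) (prT (Tm.var 1) (Tm.var 0)))))))
        (Arith.ex' (Arith.and ?_ (Arith.eq (Tm.var 1) (prT (Tm.const n) (Tm.var 0)))))
      · exact (Delta0.mem (Tm.var 0) (Tm.const s)).arith
      · exact (Delta0.mem (Tm.var 0) (Tm.const k)).arith) (s + (pr n k + 1)) (by
      rintro y (⟨hy, -⟩ | ⟨x, hx, rfl⟩)
      · exact lt_of_lt_of_le hy.lt le_self_add
      · have h1 : x ≤ k := hx.lt.le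
        have h2 : pr n x ≤ pr n k := by
          unfold pr
          gcongr
        exact lt_of_lt_of_le (lt_succ_iff'.2 h2) le_add_self)
  have hA : ∀ i, i < n → ∀ x, (Mem (pr i x) s' ↔ Mem (pr i x) s) := by
    intro i hi x
    rw [hs']
    constructor
    · rintro (⟨h, -⟩ | ⟨x', -, h⟩)
      · exact h
      · exact absurd (pr_inj h).1 hi.ne
    · intro h
      exact Or.inl ⟨h, i, hi, x, rfl⟩
  have hB : ∀ x, (Mem (pr n x) s' ↔ Mem x k) := by
    intro x
    rw [hs']
    constructor
    · rintro (⟨h, i, hi, x', hx'⟩ | ⟨x', hx', h⟩)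
      · exact absurd (pr_inj hx').1 hi.ne'
      · rw [(pr_inj h).2]
        exact hx'
    · intro h
      exact Or.inr ⟨x, h, rfl⟩
  refine ⟨s', ?_, ?_⟩
  · intro i hi
    rcases (lt_succ_iff'.1 hi).lt_or_eq with h | h
    · obtain ⟨k', hk', hk2⟩ := hs.1 i h
      exact ⟨k', hk', fun x => (hA i h x).trans (hk2 x)⟩
    · rw [h]
      exact ⟨k, hk, hB⟩
  · intro i hi j hj hij x
    rcases (lt_succ_iff'.1 hi).lt_or_eq with h | h <;> rcases (lt_succ_iff'.1 hj).lt_or_eq with h' | h'
    · rw [hA i h, hA j h']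
      exact hs.2 i h j h' hij x
    · rw [hA i h, h', hB]
      rintro ⟨h1, h2⟩
      exact hdis i h x h1 h2
    · rw [hA j h', h, hB]
      rintro ⟨h1, h2⟩
      exact hdis j h' x h2 h1
    · exact absurd (h.trans h'.symm) hij

/-- TARGET: a definable family `H` of codes of sets with at most `r` elements that is hit by a
small set `Z` is hit by a finite subset of `Z` -/
theorem hyper (hns : ∃ m : M, m ∉ omega M) (κ : Cardinal.{u}) (hκ : ∀ m : M, m ∉ omega M → κ ≤ #(Set.Iio m)) (r : ℕ) :
    ∀ (H : M → Prop), Arith (fun v : ℕ → M => H (v 0)) → (∀ k, H k → (El k).encard ≤ r) →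
    ∀ Z : Set M, #Z < κ → (∀ k, H k → ∃ z ∈ Z, Mem z k) →
      ∃ F : Set M, F.Finite ∧ F ⊆ Z ∧ ∀ k, H k → ∃ z ∈ F, Mem z k := by
  classical
  induction r with
  | zero =>
    intro H hH hr Z hZ hit
    refine ⟨∅, Set.finite_empty, Set.empty_subset _, ?_⟩
    intro k hk
    exfalso
    obtain ⟨z, -, hz⟩ := hit k hk
    have h1 : El k = ∅ := by
      have := hr k hk
      simpa using this
    have h2 : z ∈ El k := hz
    rw [h1] at h2
    exact h2
  | succ r ih =>
    intro H hH hr Z hZ hit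
    have hex := not_all_std hns (fun n => ∃ s, Gd H s n) (Gd_arith hH) (no_big hκ hZ hit)
    have hmin := Nat.find_spec hex
    have hlt := fun {m : ℕ} (h : m < Nat.find hex) => Nat.find_min hex h
    obtain ⟨n, hn⟩ : ∃ n, Nat.find hex = n + 1 := by
      rcases Nat.eq_zero_or_eq_succ_pred (Nat.find hex) with h | h
      · exfalso
        rw [h] at hmin
        apply hmin
        refine ⟨0, ?_, ?_⟩
        · intro i hi
          rw [Nat.cast_zero] at hi
          exact absurd hi (not_lt.2 zero_le)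
        · intro i hi
          rw [Nat.cast_zero] at hi
          exact absurd hi (not_lt.2 zero_le)
      · exact ⟨_, h⟩
    rw [hn, Nat.cast_succ] at hmin
    obtain ⟨s, hs⟩ : ∃ s, Gd H s (n : M) := by
      have := hlt (m := n) (by omega)
      push Not at this
      exact this
    -- the finite set of vertices
    let V : Set M := ⋃ i ∈ (Finset.range n : Finset ℕ), {x | Mem (pr (i : M) x) s}
    have hVfin : V.Finite := by
      apply Set.Finite.biUnion (Finset.finite_toSet (Finset.range n))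
      intro i hi
      have hi' : i < n := by simpa using hi
      obtain ⟨k, hk, hkx⟩ := hs.1 (i : M) (by exact_mod_cast hi')
      have : {x | Mem (pr (i : M) x) s} = El k := by
        ext x
        exact hkx x
      rw [this]
      exact Set.finite_of_encard_le_coe (hr k hk)
    have hVhit : ∀ k, H k → ∃ v ∈ V, Mem v k := by
      intro k hk
      by_contra hcon
      push Not at hcon
      apply hmin
      refine extend_Gd hs hk ?_
      intro i hi x hx
      obtain ⟨i', hi', rfl⟩ := std_lt n i hi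
      apply hcon x
      simp only [V, Set.mem_iUnion]
      exact ⟨i', by simpa using hi', hx⟩
    -- induction hypothesis
    have hF : ∀ v : M, ∃ F : Set M, F.Finite ∧ F ⊆ Z ∧ (v ∉ Z → ∀ k, H k → Mem v k →
        ∃ z ∈ F, Mem z k) := by
      intro v
      by_cases hv : v ∈ Z
      · exact ⟨∅, Set.finite_empty, Set.empty_subset _, fun h => absurd hv h⟩
      · obtain ⟨F, hF1, hF2, hF3⟩ := ih (fun k2 => ∃ k, H k ∧ Mem v k ∧ ∀ x, (Mem x k2 ↔
          Mem x k ∧ ¬ x = v)) (by
            refine Arith.ex' (Arith.and ?_ (Arith.and ?_ (Arith.all' (Arith.iff ?_ (Arith.and ?_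
              (Arith.eq (Tm.var 0) (Tm.const v)).not)))))
            · exact hH
            · exact (Delta0.mem (Tm.const v) (Tm.var 0)).arith
            · exact (Delta0.mem (Tm.var 0) (Tm.var 2)).arith
            · exact (Delta0.mem (Tm.var 0) (Tm.var 1)).arith) (by
            rintro k2 ⟨k, hk, hvk, hk2⟩
            have h1 : El k2 = El k \ {v} := by
              ext x
              exact hk2 x
            have h2 : (El k \ {v}).encard + 1 = (El k).encard :=
              Set.encard_sdiff_singleton_add_one hvk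
            have h3 := hr k hk
            rw [← h2] at h3
            rw [h1]
            push_cast at h3
            exact (ENat.add_le_add_iff_right (by simp)).mp h3) Z hZ (by
            rintro k2 ⟨k, hk, hvk, hk2⟩
            obtain ⟨z, hzZ, hzk⟩ := hit k hk
            refine ⟨z, hzZ, (hk2 z).2 ⟨hzk, ?_⟩⟩
            intro h
            rw [h] at hzZ
            exact hv hzZ)
        refine ⟨F, hF1, hF2, fun _ k hk hvk => ?_⟩
        obtain ⟨k2, hk2⟩ := exists_code (fun x => Mem x k ∧ ¬ x = v) (by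
          refine Arith.and ?_ (Arith.eq (Tm.var 0) (Tm.const v)).not
          exact (Delta0.mem (Tm.var 0) (Tm.const k)).arith) k (fun x hx => hx.1.lt)
        obtain ⟨z, hz, hzk2⟩ := hF3 k2 ⟨k, hk, hvk, hk2⟩
        exact ⟨z, hz, ((hk2 z).1 hzk2).1⟩
    choose F hF1 hF2 hF3 using hF
    refine ⟨(V ∩ Z) ∪ ⋃ v ∈ V, F v, ?_, ?_, ?_⟩
    · exact (hVfin.inter_of_left Z).union (hVfin.biUnion fun v _ => hF1 v)
    · rintro x (hx | hx)
      · exact hx.2
      · simp only [Set.mem_iUnion] at hx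
        obtain ⟨v, -, hx⟩ := hx
        exact hF2 v hx
    · intro k hk
      obtain ⟨v, hvV, hvk⟩ := hVhit k hk
      by_cases hvZ : v ∈ Z
      · exact ⟨v, Or.inl ⟨hvV, hvZ⟩, hvk⟩
      · obtain ⟨z, hz, hzk⟩ := hF3 v hvZ k hk hvk
        refine ⟨z, Or.inr ?_, hzk⟩
        simp only [Set.mem_iUnion]
        exact ⟨v, hvV, hz⟩

end TARGET

end Pool.Agent.Helper425.PA
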