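import Pool.Agent.Helper425.PA.Lit
import Pool.Agent.Helper425.PA.Hyper

/-! The final contradiction lemma (proved by helper782) -/

set_option autoImplicit false
set_option linter.unusedSectionVars false

universe u

namespace Pool.Agent.Helper425.PA

section TARGET

open Cardinal

variable {M : Type u} [CommSemiring M] [LinearOrder M] [PeanoModel M]




/-- `g` witnesses that the set coded by `p` has at most `n` elements -/
def SmW (n p g : M) : Prop :=
  (∀ x, Mem x p → ∃ i, i < n ∧ Mem (pr i x) g) ∧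
    ∀ i, i < n → ∀ x, x < g → ∀ y, y < g → Mem (pr i x) g → Mem (pr i y) g → x = y

/-- the set coded by `p` has at most `n` elements -/
def Small (n p : M) : Prop := ∃ g, SmW n p g

/-- self-consistent sets of literals -/
def SC (p : M) : Prop := ∀ x, x < p → ¬ (Mem (x + x) p ∧ Mem (x + x + 1) p)

lemma smW_delta0 {fn fp fg : (ℕ → M) → M} (hn : Tm fn) (hp : Tm fp) (hg : Tm fg) :
    Delta0 fun v => SmW (fn v) (fp v) (fg v) := by
  refine Delta0.and ?_ ?_
  · refine Delta0.ballMem (R := fun x v => ∃ i, i < fn v ∧ Mem (pr i x) (fg v)) hp ?_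
    refine Delta0.bex' (R := fun i w => Mem (pr i (w 0)) (fg (fun i => w (i + 1)))) hn.tail ?_
    exact Delta0.mem ((Tm.var 0).pr (Tm.var 1)) hg.tail.tail
  · refine Delta0.ball' (R := fun i v => ∀ x, x < fg v → ∀ y, y < fg v →
      Mem (pr i x) (fg v) → Mem (pr i y) (fg v) → x = y) hn ?_
    refine Delta0.ball' (R := fun x w => ∀ y, y < fg (fun i => w (i + 1)) →
      Mem (pr (w 0) x) (fg (fun i => w (i + 1))) → Mem (pr (w 0) y) (fg (fun i => w (i + 1))) →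
        x = y) hg.tail ?_
    refine Delta0.ball' (R := fun y w =>
      Mem (pr (w 1) (w 0)) (fg (fun i => w (i + 2))) → Mem (pr (w 1) y) (fg (fun i => w (i + 2))) →
        w 0 = y) hg.tail.tail ?_
    refine Delta0.imp ?_ (Delta0.imp ?_ ?_)
    · exact Delta0.mem ((Tm.var 2).pr (Tm.var 1)) hg.tail.tail.tail
    · exact Delta0.mem ((Tm.var 2).pr (Tm.var 0)) hg.tail.tail.tail
    · exact Delta0.eq (Tm.var 1) (Tm.var 0)

lemma small_sigma1 {fn fp : (ℕ → M) → M} (hn : Tm fn) (hp : Tm fp) :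
    Sigma1 fun v => Small (fn v) (fp v) :=
  Sigma1.ex' (R := fun g v => SmW (fn v) (fp v) g)
    (smW_delta0 hn.tail hp.tail (Tm.var 0)).sigma1

lemma sc_delta0 {fp : (ℕ → M) → M} (hp : Tm fp) : Delta0 fun v => SC (fp v) := by
  refine Delta0.ball' (R := fun x v => ¬ (Mem (x + x) (fp v) ∧ Mem (x + x + 1) (fp v))) hp ?_
  exact ((Delta0.mem ((Tm.var 0).add (Tm.var 0)) hp.tail).and
    (Delta0.mem (((Tm.var 0).add (Tm.var 0)).add (Tm.const 1)) hp.tail)).not

lemma SC.out {p : M} (h : SC p) (x : M) : ¬ (Mem (x + x) p ∧ Mem (x + x + 1) p) := by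
  intro hx
  exact h x (lt_of_le_of_lt (le_double x) hx.1.lt) hx

lemma encard_Iio_nat (n : ℕ) : (Set.Iio n).encard = n := by
  rw [← Finset.coe_Iio, Set.encard_coe_eq_coe_finsetCard, Nat.card_Iio]

lemma encard_Iio_nat_le (n : ℕ) : (Set.Iio n).encard ≤ n := (encard_Iio_nat n).le

lemma small_encard {n : ℕ} {p : M} (h : Small (n : M) p) : (El p).encard ≤ n := by
  obtain ⟨g, hg1, hg2⟩ := h
  have h1 : ∀ x : M, ∃ i : ℕ, Mem x p → i < n ∧ Mem (pr (i : M) x) g := by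
    intro x
    by_cases hx : Mem x p
    · obtain ⟨i, hi, hig⟩ := hg1 x hx
      obtain ⟨j, rfl⟩ := mem_omega_of_lt hi
      exact ⟨j, fun _ => ⟨Nat.cast_lt.1 hi, hig⟩⟩
    · exact ⟨0, fun h => absurd h hx⟩
  choose f hf using h1
  have h2 : Set.MapsTo f (El p) (Set.Iio n) := fun x hx => (hf x hx).1
  have h3 : Set.InjOn f (El p) := by
    intro x hx y hy hxy
    have hx' := (hf x hx).2
    have hy' := (hf y hy).2
    rw [← hxy] at hy'
    refine hg2 (f x : M) (Nat.cast_lt.2 (hf x hx).1) x ?_ y ?_ hx' hy'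
    · exact lt_of_le_of_lt (le_pr_right _ _) hx'.lt
    · exact lt_of_le_of_lt (le_pr_right _ _) hy'.lt
  refine (Set.encard_le_encard_of_injOn h2 h3).trans (encard_Iio_nat_le n)

lemma small_of_encard {n : ℕ} {p : M} (h : (El p).encard ≤ n) : Small (n : M) p := by
  have hfin : (El p).Finite := Set.finite_of_encard_le_coe h
  obtain ⟨f, hf1, hf2⟩ := hfin.exists_injOn_of_encard_le (t := Set.Iio n)
    (by rw [encard_Iio_nat]; exact h)
  obtain ⟨g, hg⟩ := exists_code_finite (hfin.image fun x => pr (f x : M) x)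
  refine ⟨g, fun x hx => ⟨(f x : M), Nat.cast_lt.2 (hf1 hx), (hg _).2 ⟨x, hx, rfl⟩⟩, ?_⟩
  intro i _ x _ y _ hx hy
  obtain ⟨x', hx', hx2⟩ := (hg _).1 hx
  obtain ⟨y', hy', hy2⟩ := (hg _).1 hy
  obtain ⟨h1, rfl⟩ := pr_inj hx2
  obtain ⟨h2, rfl⟩ := pr_inj hy2
  refine hf2 hx' hy' ?_
  exact Nat.cast_injective (h1.trans h2.symm)

lemma Small.mono_nat {n m : ℕ} (hnm : n ≤ m) {p : M} (h : Small (n : M) p) : Small (m : M) p :=
  small_of_encard ((small_encard h).trans (by exact_mod_cast hnm))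

lemma exists_small {p : M} (h : (El p).Finite) : ∃ n : ℕ, Small (n : M) p := by
  refine ⟨(El p).ncard, small_of_encard ?_⟩
  rw [h.cast_ncard_eq]

/-- two infos with contradictory answers -/
def HH (V : M → M → Prop) (n k : M) : Prop :=
  ∃ p p' q q' x, SC p ∧ SC p' ∧ Small n p ∧ Small n p' ∧ V q p ∧ V q' p' ∧
    ((Mem (x + x) q ∧ Mem (x + x + 1) q') ∨ (Mem (x + x + 1) q ∧ Mem (x + x) q')) ∧
    ∀ z, Mem z k ↔ (Mem z p ∨ Mem z p')

lemma hh_arith {V : M → M → Prop} (hV : Sigma1 (fun v : ℕ → M => V (v 0) (v 1))) (n : M) :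
    Arith (fun v : ℕ → M => HH V n (v 0)) := by
  refine Arith.ex' (Arith.ex' (Arith.ex' (Arith.ex' (Arith.ex' ?_))))
  refine (sc_delta0 (Tm.var 4)).arith.and ((sc_delta0 (Tm.var 3)).arith.and
    ((small_sigma1 (Tm.const n) (Tm.var 4)).arith.and
    ((small_sigma1 (Tm.const n) (Tm.var 3)).arith.and
    ((Sigma1.sub2 hV (Tm.var 2) (Tm.var 4)).arith.and
    ((Sigma1.sub2 hV (Tm.var 1) (Tm.var 3)).arith.and ((Arith.or (Arith.and ?_ ?_)
      (Arith.and ?_ ?_)).and (Arith.all' (Arith.iff ?_ (Arith.or ?_ ?_)))))))))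
  · exact Arith.mem ((Tm.var 0).add (Tm.var 0)) (Tm.var 2)
  · exact Arith.mem (((Tm.var 0).add (Tm.var 0)).add (Tm.const 1)) (Tm.var 1)
  · exact Arith.mem (((Tm.var 0).add (Tm.var 0)).add (Tm.const 1)) (Tm.var 2)
  · exact Arith.mem ((Tm.var 0).add (Tm.var 0)) (Tm.var 1)
  · exact Arith.mem (Tm.var 0) (Tm.var 6)
  · exact Arith.mem (Tm.var 0) (Tm.var 5)
  · exact Arith.mem (Tm.var 0) (Tm.var 4)

lemma hh_encard {V : M → M → Prop} {n : ℕ} {k : M} (h : HH V (n : M) k) :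
    (El k).encard ≤ (n + n : ℕ) := by
  obtain ⟨p, p', q, q', x, _, _, h1, h2, _, _, _, h3⟩ := h
  have h4 : El k = El p ∪ El p' := Set.ext fun z => h3 z
  rw [h4]
  refine (Set.encard_union_le _ _).trans ?_
  rw [Nat.cast_add]
  exact add_le_add (small_encard h1) (small_encard h2)

lemma sc_of_lit {X : Set M} {p : M} (h : El p ⊆ Lit X) : SC p := by
  rintro x - ⟨h1, h2⟩
  exact (even_mem_lit.1 (h h1)) (odd_mem_lit.1 (h h2))

/-- the reduction -/
def VV (V : M → M → Prop) (s b q h : M) : Prop :=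
  ∃ n c p, Mem (n + n + 1) h ∧ Mem (c + c) h ∧ c < b ∧ SC p ∧ Small n p ∧
    (∀ x, x < s → Mem (pr c x) s → ¬ Mem x p) ∧ V q p

lemma vv_sigma1 {V : M → M → Prop} (hV : Sigma1 (fun v : ℕ → M => V (v 0) (v 1))) (s b : M) :
    Sigma1 (fun v : ℕ → M => VV V s b (v 0) (v 1)) := by
  refine Sigma1.ex' (Sigma1.ex' (Sigma1.ex' ?_))
  refine Sigma1.and ?_ (Sigma1.and ?_ (Sigma1.and ?_ (Sigma1.and ?_ (Sigma1.and ?_
    (Sigma1.and ?_ ?_)))))
  · exact (Delta0.mem (((Tm.var 2).add (Tm.var 2)).add (Tm.const 1)) (Tm.var 4)).sigma1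
  · exact (Delta0.mem ((Tm.var 1).add (Tm.var 1)) (Tm.var 4)).sigma1
  · exact (Delta0.lt (Tm.var 1) (Tm.const b)).sigma1
  · exact (sc_delta0 (Tm.var 0)).sigma1
  · exact small_sigma1 (Tm.var 2) (Tm.var 0)
  · refine (Delta0.ball' (R := fun x w => Mem (pr (w 1) x) s → ¬ Mem x (w 0)) (Tm.const s)
      (Delta0.imp ?_ (Delta0.not ?_))).sigma1
    · exact Delta0.mem ((Tm.var 2).pr (Tm.var 0)) (Tm.const s)
    · exact Delta0.mem (Tm.var 0) (Tm.var 1)
  · exact Sigma1.sub2 hV (Tm.var 3) (Tm.var 0)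

/-- TARGET: if `X` computes `A`, correct infos of `X` are finite, and a small set `N` of false
literals of `X` is enough to keep the reduction correct, then the standard cut computes `A` -/
theorem final (hsat : CountablySaturated M) (κ : Cardinal.{u})
    (hκ : ∀ m : M, m ∉ omega M → κ ≤ #(Set.Iio m)) {A X : Set M} {V : M → M → Prop}
    (hV : Sigma1 (fun v : ℕ → M => V (v 0) (v 1)))
    (hred : ∀ q, El q ⊆ Lit A ↔ ∃ p, El p ⊆ Lit X ∧ V q p)
    (hfin : ∀ p : M, El p ⊆ Lit X → (El p).Finite)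
    {N : Set M} (hN : #N < κ) (hNX : ∀ x ∈ N, x ∉ Lit X)
    (hgood : ∀ p q : M, (El p).Finite → (∀ x, ¬ (Mem (x + x) p ∧ Mem (x + x + 1) p)) →
      (∀ x ∈ N, ¬ Mem x p) → V q p → El q ⊆ Lit A) :
    ERed (Lit A) (Lit (omega M)) := by
  have hns : ∃ m : M, m ∉ omega M := exists_nonstd hsat
  have hfinsm : ∀ {n : ℕ} {p : M}, Small (n : M) p → (El p).Finite :=
    fun h => Set.finite_of_encard_le_coe (small_encard h)
  -- the finite sets `F n`
  have hF : ∀ n : ℕ, ∃ F : Set M, F.Finite ∧ F ⊆ N ∧ ∀ k, HH V (n : M) k → ∃ z ∈ F, Mem z k := by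
    intro n
    refine hyper hns κ hκ (n + n) (fun k => HH V (n : M) k) (hh_arith hV n)
      (fun k hk => hh_encard hk) N hN ?_
    rintro k ⟨p, p', q, q', x, hp, hp', h1, h2, h3, h4, h5, h6⟩
    by_contra hcon
    push Not at hcon
    have hq : El q ⊆ Lit A := hgood p q (hfinsm h1) hp.out
      (fun z hz hzp => hcon z hz ((h6 z).2 (Or.inl hzp))) h3
    have hq' : El q' ⊆ Lit A := hgood p' q' (hfinsm h2) hp'.out
      (fun z hz hzp => hcon z hz ((h6 z).2 (Or.inr hzp))) h4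
    rcases h5 with ⟨h5, h7⟩ | ⟨h5, h7⟩
    · exact (even_mem_lit.1 (hq h5)) (odd_mem_lit.1 (hq' h7))
    · exact (even_mem_lit.1 (hq' h7)) (odd_mem_lit.1 (hq h5))
  choose F hF1 hF2 hF3 using hF
  have hτ : ∀ n : ℕ, ∃ t : M, ∀ x, Mem x t ↔ x ∈ ⋃ i ∈ Set.Iic n, F i := fun n =>
    exists_code_finite ((Set.finite_Iic n).biUnion fun i _ => hF1 i)
  choose τ hτ using hτ
  have hτ' : ∀ n x, Mem x (τ n) ↔ ∃ i, i ≤ n ∧ x ∈ F i := by
    intro n x
    rw [hτ]
    simp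
  obtain ⟨s, b, hb, hs, hsm⟩ := exists_seq_mono hsat τ (by
    intro i j hij x hx
    rw [hτ'] at hx ⊢
    obtain ⟨l, hl, hx⟩ := hx
    exact ⟨l, hl.trans hij, hx⟩)
  refine ⟨VV V s b, vv_sigma1 hV s b, fun q => ⟨fun hq => ?_, ?_⟩⟩
  · obtain ⟨p, hp, hqp⟩ := (hred q).1 hq
    obtain ⟨n, hn⟩ := exists_small (hfin p hp)
    obtain ⟨c, hc, hcb, hcp⟩ := overspill_lt hb
      (P := fun c => ∀ x, x < s → Mem (pr c x) s → ¬ Mem x p)
      (Arith.all' ((Arith.lt (Tm.var 0) (Tm.const s)).imp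
        ((Arith.mem ((Tm.var 1).pr (Tm.var 0)) (Tm.const s)).imp
          (Arith.mem (Tm.var 0) (Tm.const p)).not))) (by
        intro m x _ hx hxp
        rw [hs, hτ'] at hx
        obtain ⟨i, _, hx⟩ := hx
        exact hNX x (hF2 i hx) (hp hxp))
    obtain ⟨h, hh⟩ := exists_code_finite (S := {(n : M) + n + 1, c + c}) (by simp)
    refine ⟨h, ?_, (n : M), c, p, ?_, ?_, hcb, sc_of_lit hp, hn, hcp, hqp⟩
    · intro y hy
      rcases (hh y).1 hy with rfl | hy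
      · exact odd_mem_lit.2 (natCast_mem_omega n)
      · rw [Set.mem_singleton_iff] at hy
        rw [hy]
        exact even_mem_lit.2 hc
    · exact (hh _).2 (Or.inl rfl)
    · exact (hh _).2 (Or.inr rfl)
  · rintro ⟨h, hh, n, c, p, h1, h2, hcb, hsc, hsmall, hav, hqp⟩
    obtain ⟨n, rfl⟩ : n ∈ omega M := odd_mem_lit.1 (hh h1)
    have hc : c ∉ omega M := even_mem_lit.1 (hh h2)
    have hav' : ∀ (m : ℕ) x, Mem x (τ m) → ¬ Mem x p := by
      intro m x hx
      have h3 : Mem (pr c x) s := hsm (m : M) c (nat_lt m hc).le hcb x ((hs m x).2 hx)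
      exact hav x (lt_of_le_of_lt (le_pr_right _ _) h3.lt) h3
    intro l hl
    by_contra hlA
    have key : ∃ l', l' ∈ Lit A ∧ ∃ x, (l = x + x ∧ l' = x + x + 1) ∨ (l = x + x + 1 ∧ l' = x + x) := by
      obtain ⟨x, rfl | rfl⟩ := even_or_odd l
      · refine ⟨x + x + 1, odd_mem_lit.2 ?_, x, Or.inl ⟨rfl, rfl⟩⟩
        by_contra hx
        exact hlA (even_mem_lit.2 hx)
      · refine ⟨x + x, even_mem_lit.2 ?_, x, Or.inr ⟨rfl, rfl⟩⟩
        intro hx
        exact hlA (odd_mem_lit.2 hx)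
    obtain ⟨l', hl', x, hx⟩ := key
    obtain ⟨q', hq'⟩ := exists_code_single l'
    obtain ⟨p', hp', hqp'⟩ := (hred q').1 (by
      intro y hy
      rw [(hq' y).1 hy]
      exact hl')
    obtain ⟨n', hn'⟩ := exists_small (hfin p' hp')
    obtain ⟨k, hk⟩ := exists_code_union p p'
    obtain ⟨z, hz, hzk⟩ := hF3 (max n n') k ⟨p, p', q, q', x, hsc, sc_of_lit hp',
      hsmall.mono_nat (le_max_left _ _), hn'.mono_nat (le_max_right _ _), hqp, hqp', by
        rcases hx with ⟨rfl, rfl⟩ | ⟨rfl, rfl⟩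
        · exact Or.inl ⟨hl, (hq' _).2 rfl⟩
        · exact Or.inr ⟨hl, (hq' _).2 rfl⟩, hk⟩
    rcases (hk z).1 hzk with h3 | h3
    · exact hav' (max n n') z ((hτ' _ _).2 ⟨_, le_rfl, hz⟩) h3
    · exact hNX z (hF2 _ hz) (hp' h3)

end TARGET

end Pool.Agent.Helper425.PA
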