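import Mathlib

/-! The greatest join-prime element is definable (proved by helper232) -/

set_option autoImplicit false

universe u

namespace Pool.Agent.Helper425.PA

/-- `m` is join-prime: whenever every common upper bound of `x` and `y` is above `m`, one of
`x`, `y` is above `m` -/
def JoinPrime {D : Type u} [PartialOrder D] (m : D) : Prop :=
  ∀ x y : D, (∀ z, x ≤ z → y ≤ z → m ≤ z) → m ≤ x ∨ m ≤ y

open FirstOrder Language in
/-- the formula: the free variable is join-prime -/
noncomputable def jpF : Language.order.BoundedFormula (Fin 1) 0 :=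
  ∀' ∀' ((∀' ((Term.le (.var (.inr 0)) (.var (.inr 2))) ⟹
      ((Term.le (.var (.inr 1)) (.var (.inr 2))) ⟹
      (Term.le (.var (.inl 0)) (.var (.inr 2)))))) ⟹
    ((Term.le (.var (.inl 0)) (.var (.inr 0))) ⊔ (Term.le (.var (.inl 0)) (.var (.inr 1)))))

open FirstOrder Language in
/-- the formula: every join-prime element is below the free variable -/
noncomputable def upF : Language.order.BoundedFormula (Fin 1) 0 :=
  ∀' ((∀' ∀' ((∀' ((Term.le (.var (.inr 1)) (.var (.inr 3))) ⟹
      ((Term.le (.var (.inr 2)) (.var (.inr 3))) ⟹
      (Term.le (.var (.inr 0)) (.var (.inr 3)))))) ⟹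
    ((Term.le (.var (.inr 0)) (.var (.inr 1))) ⊔ (Term.le (.var (.inr 0)) (.var (.inr 2)))))) ⟹
    (Term.le (.var (.inr 0)) (.var (.inl 0))))

/-- TARGET: a greatest join-prime element is first order definable without parameters -/
theorem definable_greatest {D : Type u} [PartialOrder D] (w : D) (h1 : JoinPrime w)
    (h2 : ∀ m : D, JoinPrime m → m ≤ w) :
    let _ : FirstOrder.Language.order.Structure D := FirstOrder.Language.orderStructure D
    (∅ : Set D).Definable₁ FirstOrder.Language.order {w} := by
  let _ : FirstOrder.Language.order.Structure D := FirstOrder.Language.orderStructure D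
  unfold Set.Definable₁
  rw [Set.empty_definable_iff]
  refine ⟨jpF ⊓ upF, ?_⟩
  have key1 : ∀ v : Fin 1 → D, FirstOrder.Language.BoundedFormula.Realize jpF v default ↔
      JoinPrime (v 0) := by
    intro v
    simp only [jpF, FirstOrder.Language.BoundedFormula.realize_all,
      FirstOrder.Language.BoundedFormula.realize_imp, FirstOrder.Language.BoundedFormula.realize_sup]
    rfl
  have key2 : ∀ v : Fin 1 → D, FirstOrder.Language.BoundedFormula.Realize upF v default ↔
      ∀ m : D, JoinPrime m → m ≤ v 0 := by
    intro v
    simp only [upF, FirstOrder.Language.BoundedFormula.realize_all,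
      FirstOrder.Language.BoundedFormula.realize_imp, FirstOrder.Language.BoundedFormula.realize_sup]
    rfl
  ext v
  constructor
  · intro hv
    have hv' : v 0 = w := hv
    change FirstOrder.Language.BoundedFormula.Realize (jpF ⊓ upF) v default
    rw [FirstOrder.Language.BoundedFormula.realize_inf]
    rw [key1, key2, hv']
    exact ⟨h1, h2⟩
  · intro hv
    have hv' : FirstOrder.Language.BoundedFormula.Realize (jpF ⊓ upF) v default := hv
    rw [FirstOrder.Language.BoundedFormula.realize_inf, key1, key2] at hv'
    exact le_antisymm (h2 _ hv'.1) (hv'.2 w h1)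

end Pool.Agent.Helper425.PA
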