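import Pool.Agent.Helper425.PA.Lit

/-! Countable directedness of joins (proved by helper175) -/

set_option autoImplicit false
set_option linter.unusedSectionVars false

universe u

namespace Pool.Agent.Helper425.PA

section TARGET

open Cardinal

variable {M : Type u} [CommSemiring M] [LinearOrder M] [PeanoModel M]

/-- a literal of `X` and the corresponding literal of the join -/
def SDj_RX (l m : M) : Prop :=
  ∃ x : M, (l = x + x + 1 ∧ m = (x + x) + (x + x) + 1) ∨ (l = x + x ∧ m = (x + x) + (x + x))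

/-- a literal of `Y` and the corresponding literal of the join -/
def SDj_RY (l m : M) : Prop :=
  ∃ x : M, (l = x + x + 1 ∧ m = (x + x + 1) + (x + x + 1) + 1) ∨
    (l = x + x ∧ m = (x + x + 1) + (x + x + 1))

lemma SDj_arX {f g : (ℕ → M) → M} (hf : Tm f) (hg : Tm g) :
    Arith (fun v => SDj_RX (f v) (g v)) := by
  refine Arith.ex' ?_
  refine Arith.or (Arith.and (Arith.eq hf.tail ?_) (Arith.eq hg.tail ?_))
    (Arith.and (Arith.eq hf.tail ?_) (Arith.eq hg.tail ?_))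
  · exact ((Tm.var 0).add (Tm.var 0)).add (Tm.const 1)
  · exact (((Tm.var 0).add (Tm.var 0)).add ((Tm.var 0).add (Tm.var 0))).add (Tm.const 1)
  · exact (Tm.var 0).add (Tm.var 0)
  · exact ((Tm.var 0).add (Tm.var 0)).add ((Tm.var 0).add (Tm.var 0))

lemma SDj_arY {f g : (ℕ → M) → M} (hf : Tm f) (hg : Tm g) :
    Arith (fun v => SDj_RY (f v) (g v)) := by
  refine Arith.ex' ?_
  refine Arith.or (Arith.and (Arith.eq hf.tail ?_) (Arith.eq hg.tail ?_))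
    (Arith.and (Arith.eq hf.tail ?_) (Arith.eq hg.tail ?_))
  · exact ((Tm.var 0).add (Tm.var 0)).add (Tm.const 1)
  · exact ((((Tm.var 0).add (Tm.var 0)).add (Tm.const 1)).add
      (((Tm.var 0).add (Tm.var 0)).add (Tm.const 1))).add (Tm.const 1)
  · exact (Tm.var 0).add (Tm.var 0)
  · exact (((Tm.var 0).add (Tm.var 0)).add (Tm.const 1)).add
      (((Tm.var 0).add (Tm.var 0)).add (Tm.const 1))

lemma SDj_leX {l m : M} (h : SDj_RX l m) : l ≤ m ∧ m ≤ l + l + 2 := by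
  obtain ⟨x, ⟨rfl, rfl⟩ | ⟨rfl, rfl⟩⟩ := h
  · exact ⟨le_iff_exists_add.2 ⟨x + x, by ring⟩, le_iff_exists_add.2 ⟨3, by ring⟩⟩
  · exact ⟨le_iff_exists_add.2 ⟨x + x, by ring⟩, le_iff_exists_add.2 ⟨2, by ring⟩⟩

lemma SDj_leY {l m : M} (h : SDj_RY l m) : l ≤ m ∧ m ≤ l + l + 2 := by
  obtain ⟨x, ⟨rfl, rfl⟩ | ⟨rfl, rfl⟩⟩ := h
  · exact ⟨le_iff_exists_add.2 ⟨x + x + 2, by ring⟩, le_iff_exists_add.2 ⟨1, by ring⟩⟩
  · exact ⟨le_iff_exists_add.2 ⟨x + x + 2, by ring⟩, le_iff_exists_add.2 ⟨0, by ring⟩⟩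

lemma SDj_even {X Y : Set M} {x : M} : x + x ∈ jn X Y ↔ x ∈ X := by
  constructor
  · rintro ⟨z, ⟨h, hz⟩ | ⟨h, _⟩⟩
    · rwa [double_inj h]
    · exact absurd h (even_ne_odd x z)
  · intro h; exact ⟨x, Or.inl ⟨rfl, h⟩⟩

lemma SDj_odd {X Y : Set M} {x : M} : x + x + 1 ∈ jn X Y ↔ x ∈ Y := by
  constructor
  · rintro ⟨z, ⟨h, _⟩ | ⟨h, hz⟩⟩
    · exact absurd h.symm (even_ne_odd z x)
    · rwa [double_inj (add_right_cancel h)]
  · intro h; exact ⟨x, Or.inr ⟨rfl, h⟩⟩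

lemma SDj_iffX {X Y : Set M} {l m : M} (h : SDj_RX l m) : m ∈ Lit (jn X Y) ↔ l ∈ Lit X := by
  obtain ⟨x, ⟨rfl, rfl⟩ | ⟨rfl, rfl⟩⟩ := h
  · rw [odd_mem_lit, odd_mem_lit, SDj_even]
  · rw [even_mem_lit, even_mem_lit, SDj_even]

lemma SDj_iffY {X Y : Set M} {l m : M} (h : SDj_RY l m) : m ∈ Lit (jn X Y) ↔ l ∈ Lit Y := by
  obtain ⟨x, ⟨rfl, rfl⟩ | ⟨rfl, rfl⟩⟩ := h
  · rw [odd_mem_lit, odd_mem_lit, SDj_odd]
  · rw [even_mem_lit, even_mem_lit, SDj_odd]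

lemma SDj_total (m : M) : (∃ l, SDj_RX l m) ∨ ∃ l, SDj_RY l m := by
  obtain ⟨y, rfl | rfl⟩ := even_or_odd m
  · obtain ⟨x, rfl | rfl⟩ := even_or_odd y
    · exact Or.inl ⟨x + x, x, Or.inr ⟨rfl, rfl⟩⟩
    · exact Or.inr ⟨x + x, x, Or.inr ⟨rfl, rfl⟩⟩
  · obtain ⟨x, rfl | rfl⟩ := even_or_odd y
    · exact Or.inl ⟨x + x + 1, x, Or.inl ⟨rfl, rfl⟩⟩
    · exact Or.inr ⟨x + x + 1, x, Or.inl ⟨rfl, rfl⟩⟩

/-- TARGET: the join of two countably directed sets is countably directed -/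
theorem SD_jn {X Y : Set M} (hX : SD (Lit X)) (hY : SD (Lit Y)) : SD (Lit (jn X Y)) := by
  intro p hp
  have hA : ∀ n, ∃ a : M, ∀ l, Mem l a ↔ ∃ m, SDj_RX l m ∧ Mem m (p n) := by
    intro n
    refine exists_code (fun l => ∃ m, SDj_RX l m ∧ Mem m (p n)) ?_ (p n) ?_
    · exact Arith.ex' ((SDj_arX (Tm.var 1) (Tm.var 0)).and
        (Arith.mem (Tm.var 0) (Tm.const (p n))))
    · rintro l ⟨m, hm, hm'⟩
      exact lt_of_le_of_lt (SDj_leX hm).1 hm'.lt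
  have hB : ∀ n, ∃ a : M, ∀ l, Mem l a ↔ ∃ m, SDj_RY l m ∧ Mem m (p n) := by
    intro n
    refine exists_code (fun l => ∃ m, SDj_RY l m ∧ Mem m (p n)) ?_ (p n) ?_
    · exact Arith.ex' ((SDj_arY (Tm.var 1) (Tm.var 0)).and
        (Arith.mem (Tm.var 0) (Tm.const (p n))))
    · rintro l ⟨m, hm, hm'⟩
      exact lt_of_le_of_lt (SDj_leY hm).1 hm'.lt
  choose a ha using hA
  choose b hb using hB
  obtain ⟨qa, hqa, hqa'⟩ := hX a (by
    intro n l hl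
    obtain ⟨m, hm, hm'⟩ := (ha n l).1 hl
    exact (SDj_iffX hm).1 (hp n hm'))
  obtain ⟨qb, hqb, hqb'⟩ := hY b (by
    intro n l hl
    obtain ⟨m, hm, hm'⟩ := (hb n l).1 hl
    exact (SDj_iffY hm).1 (hp n hm'))
  obtain ⟨q, hq⟩ := exists_code
    (fun m => (∃ l, SDj_RX l m ∧ Mem l qa) ∨ ∃ l, SDj_RY l m ∧ Mem l qb)
    ((Arith.ex' ((SDj_arX (Tm.var 0) (Tm.var 1)).and
        (Arith.mem (Tm.var 0) (Tm.const qa)))).or
      (Arith.ex' ((SDj_arY (Tm.var 0) (Tm.var 1)).and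
        (Arith.mem (Tm.var 0) (Tm.const qb)))))
    ((qa + qa + 2 + 1) + (qb + qb + 2 + 1)) (by
      rintro m (⟨l, hl, hl'⟩ | ⟨l, hl, hl'⟩)
      · refine lt_of_lt_of_le (lt_succ_iff'.2 ((SDj_leX hl).2.trans ?_)) le_self_add
        exact add_le_add (add_le_add hl'.lt.le hl'.lt.le) le_rfl
      · refine lt_of_lt_of_le (lt_succ_iff'.2 ((SDj_leY hl).2.trans ?_)) le_add_self
        exact add_le_add (add_le_add hl'.lt.le hl'.lt.le) le_rfl)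
  refine ⟨q, ?_, ?_⟩
  · intro m hm
    rcases (hq m).1 hm with ⟨l, hl, hl'⟩ | ⟨l, hl, hl'⟩
    · exact (SDj_iffX hl).2 (hqa hl')
    · exact (SDj_iffY hl).2 (hqb hl')
  · intro n m hm
    rcases SDj_total m with ⟨l, hl⟩ | ⟨l, hl⟩
    · exact (hq m).2 (Or.inl ⟨l, hl, hqa' n ((ha n l).2 ⟨m, hl, hm⟩)⟩)
    · exact (hq m).2 (Or.inr ⟨l, hl, hqb' n ((hb n l).2 ⟨m, hl, hm⟩)⟩)

end TARGET

end Pool.Agent.Helper425.PA
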