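import Pool.Agent.Helper425.PA.Lit

/-! Components reduce to the join (proved by helper866) -/

set_option autoImplicit false
set_option linter.unusedSectionVars false

universe u

namespace Pool.Agent.Helper425.PA

section TARGET

open Cardinal

variable {M : Type u} [CommSemiring M] [LinearOrder M] [PeanoModel M]

/-- general form -/
theorem ered_emb_9913 (Z W : Set M) (e : M → M)
    (he : ∀ f : (ℕ → M) → M, Tm f → Tm (fun v => e (f v))) (hemb : ∀ x, e x ∈ W ↔ x ∈ Z)
    (hb : ∀ x, e x ≤ x + x + 1) : ERed (Lit Z) (Lit W) := by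
  refine ⟨fun q p => ∀ x, x < q → (Mem (x + x + 1) q → Mem (e x + e x + 1) p) ∧
    (Mem (x + x) q → Mem (e x + e x) p), ?_, fun q => ?_⟩
  · refine Delta0.sigma1 (Delta0.ball' (R := fun x v => (Mem (x + x + 1) (v 0) →
      Mem (e x + e x + 1) (v 1)) ∧ (Mem (x + x) (v 0) → Mem (e x + e x) (v 1))) (Tm.var 0) ?_)
    have hx : Tm (fun w : ℕ → M => w 0) := Tm.var 0
    have hex : Tm (fun w : ℕ → M => e (w 0)) := he _ hx
    exact Delta0.and
      (Delta0.imp (Delta0.mem ((hx.add hx).add (Tm.const 1)) (Tm.var 1))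
        (Delta0.mem ((hex.add hex).add (Tm.const 1)) (Tm.var 2)))
      (Delta0.imp (Delta0.mem (hx.add hx) (Tm.var 1)) (Delta0.mem (hex.add hex) (Tm.var 2)))
  · constructor
    · intro hq
      obtain ⟨p, hp⟩ := exists_code (fun l => ∃ x, (l = e x + e x + 1 ∧ Mem (x + x + 1) q) ∨
        (l = e x + e x ∧ Mem (x + x) q)) (by
          refine Arith.ex' (R := fun x v => (v 0 = e x + e x + 1 ∧ Mem (x + x + 1) q) ∨
            (v 0 = e x + e x ∧ Mem (x + x) q)) ?_
          have hx : Tm (fun w : ℕ → M => w 0) := Tm.var 0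
          have hex : Tm (fun w : ℕ → M => e (w 0)) := he _ hx
          exact Arith.or
            ((Arith.eq (Tm.var 1) ((hex.add hex).add (Tm.const 1))).and
              (Arith.mem ((hx.add hx).add (Tm.const 1)) (Tm.const q)))
            ((Arith.eq (Tm.var 1) (hex.add hex)).and
              (Arith.mem (hx.add hx) (Tm.const q)))) (q + q + 1 + 1) (by
          rintro l ⟨x, ⟨rfl, hx⟩ | ⟨rfl, hx⟩⟩
          · have h1 : e x ≤ q := (hb x).trans hx.lt.le
            have h2 : e x + e x + 1 ≤ q + q + 1 := by gcongr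
            exact lt_of_le_of_lt h2 (lt_add_one _)
          · have h1 : e x ≤ q := (hb x).trans (succ_le_iff'.2 hx.lt)
            have h2 : e x + e x ≤ q + q := add_le_add h1 h1
            exact lt_of_le_of_lt h2 ((lt_add_one _).trans (lt_add_one _)))
      refine ⟨p, ?_, fun x _ => ⟨fun hx => ?_, fun hx => ?_⟩⟩
      · intro l hl
        obtain ⟨x, ⟨rfl, hx⟩ | ⟨rfl, hx⟩⟩ := (hp l).1 hl
        · exact odd_mem_lit.2 ((hemb x).2 (odd_mem_lit.1 (hq hx)))
        · exact even_mem_lit.2 (fun h => even_mem_lit.1 (hq hx) ((hemb x).1 h))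
      · exact (hp _).2 ⟨x, Or.inl ⟨rfl, hx⟩⟩
      · exact (hp _).2 ⟨x, Or.inr ⟨rfl, hx⟩⟩
    · rintro ⟨p, hp, hV⟩ y hy
      have hyq : y < q := Mem.lt hy
      obtain ⟨x, rfl | rfl⟩ := even_or_odd y
      · have hxq : x < q := lt_of_le_of_lt (le_double x) hyq
        have h1 := hp ((hV x hxq).2 hy)
        exact even_mem_lit.2 (fun h => even_mem_lit.1 h1 ((hemb x).2 h))
      · have hxq : x < q := lt_of_le_of_lt ((le_double x).trans (lt_add_one _).le) hyq
        have h1 := hp ((hV x hxq).1 hy)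
        exact odd_mem_lit.2 ((hemb x).1 (odd_mem_lit.1 h1))

/-- TARGET 1 -/
theorem ered_jn_left (X Y : Set M) : ERed (Lit X) (Lit (jn X Y)) := by
  refine ered_emb_9913 X (jn X Y) (fun x => x + x) (fun f hf => hf.add hf) (fun x => ?_)
    (fun x => (lt_add_one _).le)
  constructor
  · rintro ⟨z, ⟨h, hz⟩ | ⟨h, _⟩⟩
    · rwa [double_inj h]
    · exact absurd h (even_ne_odd x z)
  · intro h
    exact ⟨x, Or.inl ⟨rfl, h⟩⟩

/-- TARGET 2 -/
theorem ered_jn_right (X Y : Set M) : ERed (Lit Y) (Lit (jn X Y)) := by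
  refine ered_emb_9913 Y (jn X Y) (fun x => x + x + 1)
    (fun f hf => (hf.add hf).add (Tm.const 1)) (fun x => ?_) (fun x => le_refl _)
  constructor
  · rintro ⟨z, ⟨h, _⟩ | ⟨h, hz⟩⟩
    · exact absurd h.symm (even_ne_odd z x)
    · rwa [double_inj (add_right_cancel h)]
  · intro h
    exact ⟨x, Or.inr ⟨rfl, h⟩⟩

end TARGET

end Pool.Agent.Helper425.PA
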