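import Pool.Agent.Helper425.PA.Std

set_option autoImplicit false
set_option linter.unusedSectionVars false

universe u

namespace Pool.Agent.Helper425.PA

variable {M : Type u} [CommSemiring M] [LinearOrder M] [PeanoModel M]

/-! ### parity -/

lemma even_or_odd (y : M) : ∃ x, y = x + x ∨ y = x + x + 1 := by
  revert y
  refine PeanoModel.induction _ ?_ ?_ ?_
  · exact Arith.ex' ((Arith.eq (Tm.var 1) ((Tm.var 0).add (Tm.var 0))).or
      (Arith.eq (Tm.var 1) (((Tm.var 0).add (Tm.var 0)).add (Tm.const 1))))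
  · exact ⟨0, Or.inl (add_zero 0).symm⟩
  · rintro y ⟨x, rfl | rfl⟩
    · exact ⟨x, Or.inr rfl⟩
    · refine ⟨x + 1, Or.inl ?_⟩
      ring

lemma even_ne_odd (x y : M) : x + x ≠ y + y + 1 := by
  intro h
  rcases le_or_gt x y with h1 | h1
  · have : x + x ≤ y + y := add_le_add h1 h1
    rw [h] at this
    exact absurd this (not_le.2 (lt_add_one _))
  · have h2 : y + 1 ≤ x := succ_le_iff'.2 h1
    have h3 : y + 1 + (y + 1) ≤ x + x := add_le_add h2 h2
    rw [h] at h3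
    have h4 : y + y + 1 < y + 1 + (y + 1) := by
      have : y + 1 + (y + 1) = y + y + 1 + 1 := by ring
      rw [this]; exact lt_add_one _
    exact absurd h3 (not_le.2 h4)

lemma double_inj {x y : M} (h : x + x = y + y) : x = y := by
  rcases lt_trichotomy x y with h1 | h1 | h1
  · exact absurd h (add_lt_add h1 h1).ne
  · exact h1
  · exact absurd h (add_lt_add h1 h1).ne'

lemma le_double (x : M) : x ≤ x + x := le_add_self

/-! ### literals -/

/-- the set of true literals of `X`: `2 x + 1` stands for `x ∈ X` and `2 x` for `x ∉ X` -/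
def Lit (X : Set M) : Set M := {y | ∃ x, (y = x + x + 1 ∧ x ∈ X) ∨ (y = x + x ∧ x ∉ X)}

lemma odd_mem_lit {X : Set M} {x : M} : x + x + 1 ∈ Lit X ↔ x ∈ X := by
  constructor
  · rintro ⟨z, ⟨h, hz⟩ | ⟨h, _⟩⟩
    · rwa [double_inj (add_right_cancel h)]
    · exact absurd h.symm (even_ne_odd z x)
  · intro h; exact ⟨x, Or.inl ⟨rfl, h⟩⟩

lemma even_mem_lit {X : Set M} {x : M} : x + x ∈ Lit X ↔ x ∉ X := by
  constructor
  · rintro ⟨z, ⟨h, _⟩ | ⟨h, hz⟩⟩
    · exact absurd h (even_ne_odd x z)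
    · rwa [double_inj h]
  · intro h; exact ⟨x, Or.inr ⟨rfl, h⟩⟩

/-- reducibility between sets of literals -/
def ERed (P Q : Set M) : Prop :=
  ∃ V : M → M → Prop, Sigma1 (fun v : ℕ → M => V (v 0) (v 1)) ∧
    ∀ q, El q ⊆ P ↔ ∃ p, El p ⊆ Q ∧ V q p

/-- countable directedness -/
def SD (Q : Set M) : Prop :=
  ∀ p : ℕ → M, (∀ n, El (p n) ⊆ Q) → ∃ q, El q ⊆ Q ∧ ∀ n, El (p n) ⊆ El q

/-- the join of two sets -/
def jn (X Y : Set M) : Set M := {y | ∃ x, (y = x + x ∧ x ∈ X) ∨ (y = x + x + 1 ∧ x ∈ Y)}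

lemma ERed.refl (P : Set M) : ERed P P := by
  refine ⟨fun q p => ∀ x, Mem x q → Mem x p,
    (Delta0.ballMem (Tm.var 0) (Delta0.mem (Tm.var 0) (Tm.var 2))).sigma1, fun q => ?_⟩
  constructor
  · intro h; exact ⟨q, h, fun x hx => hx⟩
  · rintro ⟨p, hp, h⟩ x hx; exact hp (h x hx)

lemma ERed.trans {P Q R : Set M} (h1 : ERed P Q) (h2 : ERed Q R) : ERed P R := by
  obtain ⟨V, hV, h1⟩ := h1
  obtain ⟨W, hW, h2⟩ := h2
  refine ⟨fun q r => ∃ p, V q p ∧ W p r, ?_, fun q => ?_⟩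
  · exact Sigma1.ex' ((Sigma1.sub2 hV (Tm.var 1) (Tm.var 0)).and
      (Sigma1.sub2 hW (Tm.var 0) (Tm.var 2)))
  · rw [h1]
    constructor
    · rintro ⟨p, hp, h⟩
      obtain ⟨r, hr, h'⟩ := (h2 p).1 hp
      exact ⟨r, hr, p, h, h'⟩
    · rintro ⟨r, hr, p, h, h'⟩
      exact ⟨p, (h2 p).2 ⟨r, hr, h'⟩, h⟩

end Pool.Agent.Helper425.PA
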