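import Pool.Agent.Helper425.PA.Lit

/-! From reductions of literals to Turing reductions (proved by helper845) -/

set_option autoImplicit false
set_option linter.unusedSectionVars false

universe u

namespace Pool.Agent.Helper425.PA

section TARGET

open Cardinal

variable {M : Type u} [CommSemiring M] [LinearOrder M] [PeanoModel M]

/-- TARGET -/
theorem tred_of_ered {A B : Set M} (h : ERed (Lit A) (Lit B)) : TRed A B := by
  obtain ⟨V, hV, hVc⟩ := h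
  have h01 : (0 : M) ≠ 1 := zero_ne_one
  -- backward helper
  have hback : ∀ p H₀ H₁ : M, El H₀ ⊆ B → El H₁ ⊆ Bᶜ →
      (∀ y, Mem y p → (∃ x, x < y + 1 ∧ (y = x + x + 1 ∧ Mem x H₀)) ∨
        (∃ x, x < y + 1 ∧ (y = x + x ∧ Mem x H₁))) → El p ⊆ Lit B := by
    intro p H₀ H₁ hH0 hH1 hp y hy
    rcases hp y hy with ⟨x, -, rfl, hx⟩ | ⟨x, -, rfl, hx⟩
    · exact odd_mem_lit.2 (hH0 hx)
    · exact even_mem_lit.2 (hH1 hx)
  -- forward helper
  have hfwd : ∀ p : M, El p ⊆ Lit B → ∃ H₀ H₁ : M, El H₀ ⊆ B ∧ El H₁ ⊆ Bᶜ ∧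
      (∀ y, Mem y p → (∃ x, x < y + 1 ∧ (y = x + x + 1 ∧ Mem x H₀)) ∨
        (∃ x, x < y + 1 ∧ (y = x + x ∧ Mem x H₁))) := by
    intro p hp
    obtain ⟨H₀, hH0⟩ := exists_code (fun x => Mem (x + x + 1) p)
      (Arith.mem (((Tm.var 0).add (Tm.var 0)).add (Tm.const 1)) (Tm.const p)) p (by
        intro x hx
        exact lt_of_le_of_lt ((le_double x).trans le_self_add) hx.lt)
    obtain ⟨H₁, hH1⟩ := exists_code (fun x => Mem (x + x) p)
      (Arith.mem ((Tm.var 0).add (Tm.var 0)) (Tm.const p)) p (by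
        intro x hx
        exact lt_of_le_of_lt (le_double x) hx.lt)
    refine ⟨H₀, H₁, ?_, ?_, ?_⟩
    · intro x hx
      exact odd_mem_lit.1 (hp ((hH0 x).1 hx))
    · intro x hx
      exact even_mem_lit.1 (hp ((hH1 x).1 hx))
    · intro y hy
      obtain ⟨x, rfl | rfl⟩ := even_or_odd y
      · exact Or.inr ⟨x, lt_succ_iff'.2 (le_double x), rfl, (hH1 x).2 hy⟩
      · exact Or.inl ⟨x, lt_succ_iff'.2 ((le_double x).trans le_self_add), rfl, (hH0 x).2 hy⟩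
  refine ⟨fun K i H₀ H₁ => ∃ q, ∃ p, ((i = 1 ∧ ∀ x, Mem x K → Mem (x + x + 1) q) ∨
      (i = 0 ∧ ∀ x, Mem x K → Mem (x + x) q)) ∧ (V q p ∧
      ∀ y, Mem y p → (∃ x, x < y + 1 ∧ (y = x + x + 1 ∧ Mem x H₀)) ∨
        (∃ x, x < y + 1 ∧ (y = x + x ∧ Mem x H₁))), ?_, fun K => ⟨⟨?_, ?_⟩, ⟨?_, ?_⟩⟩⟩
  · refine Sigma1.ex' (Sigma1.ex' (Sigma1.and (Delta0.sigma1 (Delta0.or
      (Delta0.and (Delta0.eq (Tm.var 3) (Tm.const 1)) (Delta0.ballMem (Tm.var 2)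
        (Delta0.mem (((Tm.var 0).add (Tm.var 0)).add (Tm.const 1)) (Tm.var 2))))
      (Delta0.and (Delta0.eq (Tm.var 3) (Tm.const 0)) (Delta0.ballMem (Tm.var 2)
        (Delta0.mem ((Tm.var 0).add (Tm.var 0)) (Tm.var 2))))))
      (Sigma1.and (Sigma1.sub2 hV (Tm.var 1) (Tm.var 0)) (Delta0.sigma1 (Delta0.ballMem (Tm.var 0)
        (Delta0.or
          (Delta0.bex' ((Tm.var 0).add (Tm.const 1)) (Delta0.and
            (Delta0.eq (Tm.var 1) (((Tm.var 0).add (Tm.var 0)).add (Tm.const 1)))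
            (Delta0.mem (Tm.var 0) (Tm.var 6))))
          (Delta0.bex' ((Tm.var 0).add (Tm.const 1)) (Delta0.and
            (Delta0.eq (Tm.var 1) ((Tm.var 0).add (Tm.var 0)))
            (Delta0.mem (Tm.var 0) (Tm.var 7))))))))))
  · intro hK
    obtain ⟨q, hq⟩ := exists_code (fun y => ∃ x, Mem x K ∧ y = x + x + 1)
      (Arith.ex' ((Arith.mem (Tm.var 0) (Tm.const K)).and
        (Arith.eq (Tm.var 1) (((Tm.var 0).add (Tm.var 0)).add (Tm.const 1))))) (K + K + 1) (by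
        rintro y ⟨x, hx, rfl⟩
        exact add_lt_add_left (add_lt_add hx.lt hx.lt) 1)
    have hqA : El q ⊆ Lit A := by
      intro y hy
      obtain ⟨x, hx, rfl⟩ := (hq y).1 hy
      exact odd_mem_lit.2 (hK hx)
    obtain ⟨p, hp, hVp⟩ := (hVc q).1 hqA
    obtain ⟨H₀, H₁, h0, h1, h2⟩ := hfwd p hp
    exact ⟨H₀, H₁, h0, h1, q, p, Or.inl ⟨rfl, fun x hx => (hq _).2 ⟨x, hx, rfl⟩⟩, hVp, h2⟩
  · rintro ⟨H₀, H₁, h0, h1, q, p, hi, hVp, h2⟩ x hx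
    have hpB := hback p H₀ H₁ h0 h1 h2
    have hqA := (hVc q).2 ⟨p, hpB, hVp⟩
    rcases hi with ⟨-, hi⟩ | ⟨hi, -⟩
    · exact odd_mem_lit.1 (hqA (hi x hx))
    · exact absurd hi.symm h01
  · intro hK
    obtain ⟨q, hq⟩ := exists_code (fun y => ∃ x, Mem x K ∧ y = x + x)
      (Arith.ex' ((Arith.mem (Tm.var 0) (Tm.const K)).and
        (Arith.eq (Tm.var 1) ((Tm.var 0).add (Tm.var 0))))) (K + K) (by
        rintro y ⟨x, hx, rfl⟩
        exact add_lt_add hx.lt hx.lt)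
    have hqA : El q ⊆ Lit A := by
      intro y hy
      obtain ⟨x, hx, rfl⟩ := (hq y).1 hy
      exact even_mem_lit.2 (hK hx)
    obtain ⟨p, hp, hVp⟩ := (hVc q).1 hqA
    obtain ⟨H₀, H₁, h0, h1, h2⟩ := hfwd p hp
    exact ⟨H₀, H₁, h0, h1, q, p, Or.inr ⟨rfl, fun x hx => (hq _).2 ⟨x, hx, rfl⟩⟩, hVp, h2⟩
  · rintro ⟨H₀, H₁, h0, h1, q, p, hi, hVp, h2⟩ x hx
    have hpB := hback p H₀ H₁ h0 h1 h2
    have hqA := (hVc q).2 ⟨p, hpB, hVp⟩
    rcases hi with ⟨hi, -⟩ | ⟨-, hi⟩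
    · exact absurd hi h01
    · exact even_mem_lit.1 (hqA (hi x hx))

end TARGET

end Pool.Agent.Helper425.PA
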