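import Pool.Agent.Helper425.PA.Final
import Pool.Agent.Helper425.PA.Decode
import Pool.Agent.Helper425.PA.CardSig
import Pool.Agent.Helper425.PA.Construct
import Pool.Agent.Helper425.PA.Cont

set_option autoImplicit false
set_option linter.unusedSectionVars false

universe u

namespace Pool.Agent.Helper425.PA

open Cardinal

variable {M : Type u} [CommSemiring M] [LinearOrder M] [PeanoModel M]

/-- compatibility of decisions -/
def Cmp (A : Set M) (a b : M × (Bool → Bool)) : Prop :=
  (a.1 = b.1 → a.2 = b.2) ∧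
    (a.2 true = true ∧ a.2 false = true → ∃ q t, a.1 = pr q t ∧ El q ⊆ Lit A)

/-- the literal made false by a decision -/
def fl (b : Bool) (a : M × (Bool → Bool)) : M := if a.2 b = true then a.1 + a.1 else a.1 + a.1 + 1

/-- the literal made true by a decision -/
def tl (b : Bool) (a : M × (Bool → Bool)) : M := if a.2 b = true then a.1 + a.1 + 1 else a.1 + a.1

/-- self-consistency -/
def SCons (p : M) : Prop := ∀ x, ¬ (Mem (x + x) p ∧ Mem (x + x + 1) p)

/-- the requirements -/
abbrev Req (M : Type u) [CommSemiring M] [LinearOrder M] : Type u :=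
  (Bool × {V : M → M → Prop // Sigma1 (fun v : ℕ → M => V (v 0) (v 1))}) ⊕ (M ⊕ M)

/-- what a requirement asks for -/
def Good (A : Set M) : Req M → Set (M × (Bool → Bool)) → Prop
  | Sum.inl (b, V), G =>
      (∃ p q, V.1 q p ∧ ¬ El q ⊆ Lit A ∧ El p ⊆ tl b '' G) ∨
      (∃ G' : Set (M × (Bool → Bool)), G' ⊆ G ∧ #G' < #M ∧ ∀ p q, (El p).Finite → SCons p →
        (∀ x ∈ fl b '' G', ¬ Mem x p) → V.1 q p → El q ⊆ Lit A)
  | Sum.inr (Sum.inl k), G => (El k).Infinite → ∀ b : Bool,
      (∃ a ∈ G, a.1 ∈ El k ∧ a.2 b = true) ∧ (∃ a ∈ G, a.1 ∈ El k ∧ a.2 b = false)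
  | Sum.inr (Sum.inr q), G => El q ⊆ Lit A → ∃ t v, (pr q t, v) ∈ G ∧ v true = true ∧
      v false = true

lemma good_mono (A : Set M) (r : Req M) (G G' : Set (M × (Bool → Bool))) (h : Good A r G)
    (hG : G ⊆ G') : Good A r G' := by
  match r with
  | Sum.inl (b, V) =>
    rcases h with ⟨p, q, h1, h2, h3⟩ | ⟨G₀, h1, h2, h3⟩
    · exact Or.inl ⟨p, q, h1, h2, h3.trans (Set.image_mono hG)⟩
    · exact Or.inr ⟨G₀, h1.trans hG, h2, h3⟩
  | Sum.inr (Sum.inl k) =>
    intro hk b
    obtain ⟨⟨a, ha, h1, h2⟩, c, hc, h3, h4⟩ := h hk b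
    exact ⟨⟨a, hG ha, h1, h2⟩, c, hG hc, h3, h4⟩
  | Sum.inr (Sum.inr q) =>
    intro hq
    obtain ⟨t, v, h1, h2⟩ := h hq
    exact ⟨t, v, hG h1, h2⟩

lemma exists_fresh {S D : Set M} (hS : #M ≤ #S) (hD : #D < #M) : ∃ x ∈ S, x ∉ D := by
  by_contra h
  push Not at h
  exact absurd (hS.trans (Cardinal.mk_le_mk_of_subset h)) (not_le.2 hD)

lemma step (hM : ℵ₀ < #M) (hD : ∀ k : M, (El k).Infinite → #M ≤ #(El k)) (A : Set M) (r : Req M)
    (G : Set (M × (Bool → Bool))) (hG : ∀ a ∈ G, ∀ b ∈ G, Cmp A a b) (hGc : #G < #M) :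
    ∃ F : Set (M × (Bool → Bool)), F.Finite ∧ (∀ a ∈ G ∪ F, ∀ b ∈ G ∪ F, Cmp A a b) ∧
      Good A r (G ∪ F) := by
  classical
  have hdom : #(Prod.fst '' G) < #M := lt_of_le_of_lt Cardinal.mk_image_le hGc
  match r with
  | Sum.inl (b, V) =>
    by_cases h : ∃ p q, (El p).Finite ∧ SCons p ∧ (∀ x ∈ fl b '' G, ¬ Mem x p) ∧ V.1 q p ∧
        ¬ El q ⊆ Lit A
    · obtain ⟨p, q, hp, hsc, hN, hV, hq⟩ := h
      let F : Set (M × (Bool → Bool)) := {a | a.1 ∉ Prod.fst '' G ∧
        ((Mem (a.1 + a.1 + 1) p ∧ a.2 = fun c => decide (c = b)) ∨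
          (Mem (a.1 + a.1) p ∧ a.2 = fun _ => false))}
      refine ⟨F, ?_, ?_, Or.inl ⟨p, q, hV, hq, ?_⟩⟩
      · have h1 : ((fun x : M => x + x + 1) ⁻¹' (El p)).Finite := by
          refine hp.preimage ?_
          intro x _ y _ hxy
          exact double_inj (add_right_cancel hxy)
        have h2 : ((fun x : M => x + x) ⁻¹' (El p)).Finite := by
          refine hp.preimage ?_
          intro x _ y _ hxy
          exact double_inj hxy
        refine ((h1.image (fun x => (x, fun c => decide (c = b)))).union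
          (h2.image (fun x => (x, fun _ => false)))).subset ?_
        rintro ⟨x, v⟩ ⟨_, ⟨h3, h4⟩ | ⟨h3, h4⟩⟩
        · left; refine ⟨x, h3, ?_⟩; simp only at h4; rw [h4]
        · right; refine ⟨x, h3, ?_⟩; simp only at h4; rw [h4]
      · have hFadm : ∀ a ∈ F, ¬ (a.2 true = true ∧ a.2 false = true) := by
          rintro ⟨x, v⟩ ⟨_, ⟨_, h4⟩ | ⟨_, h4⟩⟩ ⟨h5, h6⟩
          · simp only at h4 h5 h6
            rw [h4] at h5 h6
            have e1 := of_decide_eq_true h5
            have e2 := of_decide_eq_true h6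
            rw [← e1] at e2
            exact absurd e2 (by decide)
          · simp only at h4 h5
            rw [h4] at h5
            exact absurd h5 (by decide)
        rintro a (ha | ha) c (hc | hc)
        · exact hG a ha c hc
        · refine ⟨fun h => ?_, (hG a ha a ha).2⟩
          exact absurd ⟨a, ha, h⟩ hc.1
        · refine ⟨fun h => ?_, fun h => absurd h (hFadm a ha)⟩
          exact absurd ⟨c, hc, h.symm⟩ ha.1
        · refine ⟨fun h => ?_, fun h => absurd h (hFadm a ha)⟩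
          obtain ⟨_, h1⟩ := ha
          obtain ⟨_, h2⟩ := hc
          rw [← h] at h2
          rcases h1 with ⟨h1, e1⟩ | ⟨h1, e1⟩ <;> rcases h2 with ⟨h2, e2⟩ | ⟨h2, e2⟩
          · rw [e1, e2]
          · exact absurd ⟨h2, h1⟩ (hsc a.1)
          · exact absurd ⟨h1, h2⟩ (hsc a.1)
          · rw [e1, e2]
      · intro l hl
        obtain ⟨x, hx⟩ := even_or_odd l
        by_cases hxd : x ∈ Prod.fst '' G
        · obtain ⟨⟨x', v⟩, ha, h1⟩ := hxd
          simp only at h1
          subst h1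
          refine ⟨(x', v), Or.inl ha, ?_⟩
          have hno := fun h => hN (fl b (x', v)) ⟨_, ha, rfl⟩ h
          unfold fl at hno
          unfold tl
          rcases hx with rfl | rfl
          · by_cases hv : v b = true
            · simp only [hv, if_true] at hno
              exact absurd hl hno
            · simp only [hv]; rfl
          · by_cases hv : v b = true
            · simp only [hv, if_true]
            · simp only [hv] at hno
              exact absurd hl hno
        · rcases hx with rfl | rfl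
          · exact ⟨(x, fun _ => false), Or.inr ⟨hxd, Or.inr ⟨hl, rfl⟩⟩, by simp [tl]⟩
          · exact ⟨(x, fun c => decide (c = b)), Or.inr ⟨hxd, Or.inl ⟨hl, rfl⟩⟩, by simp [tl]⟩
    · refine ⟨∅, Set.finite_empty, by simpa using hG, Or.inr ⟨G, by simp, hGc, ?_⟩⟩
      intro p q h1 h2 h3 h4
      by_contra h5
      exact h ⟨p, q, h1, h2, h3, h4, h5⟩
  | Sum.inr (Sum.inl k) =>
    by_cases hk : (El k).Infinite
    · obtain ⟨x, hx, hxd⟩ := exists_fresh (hD k hk) hdom
      have hdom' : #(insert x (Prod.fst '' G) : Set M) < #M := by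
        refine lt_of_le_of_lt Cardinal.mk_insert_le ?_
        exact Cardinal.add_lt_of_lt hM.le hdom (lt_of_lt_of_le Cardinal.one_lt_aleph0 hM.le)
      obtain ⟨y, hy, hyd⟩ := exists_fresh (hD k hk) hdom'
      have hyx : y ≠ x := fun h => hyd (Or.inl h)
      have hyd' : y ∉ Prod.fst '' G := fun h => hyd (Or.inr h)
      refine ⟨{(x, fun c => c), (y, fun c => !c)}, Set.toFinite _, ?_, ?_⟩
      · rintro a (ha | ha) c (hc | hc)
        · exact hG a ha c hc
        · refine ⟨fun h => ?_, (hG a ha a ha).2⟩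
          rcases hc with rfl | hc
          · exact absurd ⟨a, ha, h⟩ hxd
          · rw [Set.mem_singleton_iff] at hc; subst hc
            exact absurd ⟨a, ha, h⟩ hyd'
        · rcases ha with rfl | ha
          · exact ⟨fun h => absurd ⟨c, hc, h.symm⟩ hxd, fun h => absurd h (by simp)⟩
          · rw [Set.mem_singleton_iff] at ha; subst ha
            exact ⟨fun h => absurd ⟨c, hc, h.symm⟩ hyd', fun h => absurd h (by simp)⟩
        · rcases ha with rfl | ha
          · refine ⟨fun h => ?_, fun h => absurd h (by simp)⟩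
            rcases hc with rfl | hc
            · rfl
            · rw [Set.mem_singleton_iff] at hc; subst hc
              exact absurd h.symm hyx
          · rw [Set.mem_singleton_iff] at ha; subst ha
            refine ⟨fun h => ?_, fun h => absurd h (by simp)⟩
            rcases hc with rfl | hc
            · exact absurd h hyx
            · rw [Set.mem_singleton_iff] at hc; subst hc
              rfl
      · intro _ b
        cases b
        · exact ⟨⟨(y, fun c => !c), Or.inr (Or.inr rfl), hy, rfl⟩,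
            ⟨(x, fun c => c), Or.inr (Or.inl rfl), hx, rfl⟩⟩
        · exact ⟨⟨(x, fun c => c), Or.inr (Or.inl rfl), hx, rfl⟩,
            ⟨(y, fun c => !c), Or.inr (Or.inr rfl), hy, rfl⟩⟩
    · exact ⟨∅, Set.finite_empty, by simpa using hG, fun h => absurd h hk⟩
  | Sum.inr (Sum.inr q) =>
    by_cases hq : El q ⊆ Lit A
    · have hS : #M ≤ #(Set.range (fun t : M => pr q t)) := by
        rw [Cardinal.mk_range_eq _ (fun t t' h => (pr_inj h).2)]
      obtain ⟨y, ⟨t, rfl⟩, ht⟩ := exists_fresh hS hdom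
      refine ⟨{(pr q t, fun _ => true)}, Set.finite_singleton _, ?_, ?_⟩
      · rintro a (ha | ha) c (hc | hc)
        · exact hG a ha c hc
        · refine ⟨fun h => ?_, (hG a ha a ha).2⟩
          rw [Set.mem_singleton_iff] at hc; subst hc
          exact absurd ⟨a, ha, h⟩ ht
        · rw [Set.mem_singleton_iff] at ha; subst ha
          exact ⟨fun h => absurd ⟨c, hc, h.symm⟩ ht, fun _ => ⟨q, t, rfl, hq⟩⟩
        · rw [Set.mem_singleton_iff] at ha hc; subst ha; subst hc
          exact ⟨fun _ => rfl, fun _ => ⟨q, t, rfl, hq⟩⟩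
      · intro _
        exact ⟨t, fun _ => true, Or.inr rfl, rfl, rfl⟩
    · exact ⟨∅, Set.finite_empty, by simpa using hG, fun h => absurd h hq⟩

lemma card_req [Infinite M] : #(Req M) ≤ #M := by
  have h1 : #{V : M → M → Prop // Sigma1 (fun v : ℕ → M => V (v 0) (v 1))} ≤ #M := card_sigma1
  have hinf : ℵ₀ ≤ #M := Cardinal.aleph0_le_mk M
  have h2 : #(Bool × {V : M → M → Prop // Sigma1 (fun v : ℕ → M => V (v 0) (v 1))}) ≤ #M := by
    rw [Cardinal.mk_prod]
    simp only [Cardinal.lift_uzero]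
    have : Cardinal.lift.{u} #Bool ≤ #M := by
      rw [Cardinal.mk_bool]
      simp only [Cardinal.lift_ofNat]
      exact (Cardinal.natCast_lt_aleph0 (n := 2)).le.trans hinf
    exact (mul_le_mul' this h1).trans (Cardinal.mul_eq_self hinf).le
  rw [Cardinal.mk_sum, Cardinal.mk_sum]
  simp only [Cardinal.lift_id]
  have h3 : #M + #M = #M := Cardinal.add_eq_self hinf
  rw [h3]
  exact (add_le_add_left h2 _).trans h3.le

/-- the splitting theorem -/
theorem split (hsat : CountablySaturated M) (hM : ℵ₀ < #M)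
    (hD : ∀ k : M, (El k).Infinite → #M ≤ #(El k))
    (hκ : ∀ m : M, m ∉ omega M → #M ≤ #(Set.Iio m)) (A : Set M)
    (hA : ¬ ERed (Lit A) (Lit (omega M))) :
    ∃ X Y : Set M, ¬ ERed (Lit A) (Lit X) ∧ ¬ ERed (Lit A) (Lit Y) ∧
      ∀ Z : Set M, ERed (Lit X) (Lit Z) → ERed (Lit Y) (Lit Z) → ERed (Lit A) (Lit Z) := by
  have : Infinite M := Cardinal.infinite_iff.2 hM.le
  obtain ⟨G, hG, hgood⟩ := construct #M hM card_req (Cmp A) (Good A) (good_mono A)
    (step hM hD A)
  let X : Bool → Set M := fun b => {x | ∃ v, (x, v) ∈ G ∧ v b = true}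
  have hfun : ∀ {x : M} {v w : Bool → Bool}, (x, v) ∈ G → (x, w) ∈ G → v = w :=
    fun h1 h2 => (hG _ h1 _ h2).1 rfl
  have hT : ∀ b, tl b '' G ⊆ Lit (X b) := by
    rintro b _ ⟨⟨x, v⟩, ha, rfl⟩
    unfold tl
    by_cases hv : v b = true
    · simp only [hv, if_true]
      exact odd_mem_lit.2 ⟨v, ha, hv⟩
    · simp only [hv]
      refine even_mem_lit.2 ?_
      rintro ⟨w, hw, hwb⟩
      rw [← hfun ha hw] at hwb
      exact hv hwb
  have hF : ∀ b, ∀ x ∈ fl b '' G, x ∉ Lit (X b) := by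
    rintro b _ ⟨⟨x, v⟩, ha, rfl⟩
    unfold fl
    by_cases hv : v b = true
    · simp only [hv, if_true]
      intro h
      exact even_mem_lit.1 h ⟨v, ha, hv⟩
    · simp only [hv]
      intro h
      obtain ⟨w, hw, hwb⟩ := odd_mem_lit.1 h
      rw [← hfun ha hw] at hwb
      exact hv hwb
  have hfin : ∀ b (p : M), El p ⊆ Lit (X b) → (El p).Finite := by
    intro b p hp
    by_contra hinf
    obtain ⟨k1, hk1⟩ := exists_code (fun x => Mem (x + x + 1) p)
      (Arith.mem (((Tm.var 0).add (Tm.var 0)).add (Tm.const 1)) (Tm.const p)) p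
      (fun x hx => lt_of_le_of_lt ((le_double x).trans le_self_add) hx.lt)
    obtain ⟨k0, hk0⟩ := exists_code (fun x => Mem (x + x) p)
      (Arith.mem ((Tm.var 0).add (Tm.var 0)) (Tm.const p)) p
      (fun x hx => lt_of_le_of_lt (le_double x) hx.lt)
    have hsub : El p ⊆ ((fun x => x + x + 1) '' El k1) ∪ ((fun x => x + x) '' El k0) := by
      intro l hl
      obtain ⟨x, rfl | rfl⟩ := even_or_odd l
      · exact Or.inr ⟨x, (hk0 x).2 hl, rfl⟩
      · exact Or.inl ⟨x, (hk1 x).2 hl, rfl⟩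
    by_cases h1 : (El k1).Finite
    · by_cases h0 : (El k0).Finite
      · exact hinf (((h1.image _).union (h0.image _)).subset hsub)
      · obtain ⟨⟨⟨x, v⟩, ha, hx, hv⟩, _⟩ := hgood (Sum.inr (Sum.inl k0)) h0 b
        exact even_mem_lit.1 (hp ((hk0 x).1 hx)) ⟨v, ha, hv⟩
    · obtain ⟨_, ⟨x, v⟩, ha, hx, hv⟩ := hgood (Sum.inr (Sum.inl k1)) h1 b
      obtain ⟨w, hw, hwb⟩ := odd_mem_lit.1 (hp ((hk1 x).1 hx))
      rw [← hfun ha hw] at hwb
      simp only at hv
      rw [hwb] at hv
      exact absurd hv (by decide)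
  have hno : ∀ b, ¬ ERed (Lit A) (Lit (X b)) := by
    rintro b ⟨V, hV, hred⟩
    rcases hgood (Sum.inl (b, ⟨V, hV⟩)) with ⟨p, q, h1, h2, h3⟩ | ⟨G', h1, h2, h3⟩
    · exact h2 ((hred q).2 ⟨p, h3.trans (hT b), h1⟩)
    · refine hA (final hsat #M hκ hV hred (hfin b) (N := fl b '' G') ?_ ?_ ?_)
      · exact lt_of_le_of_lt Cardinal.mk_image_le h2
      · intro x hx
        exact hF b x (Set.image_mono h1 hx)
      · intro p q hp1 hp2 hp3 hp4
        exact h3 p q hp1 hp2 hp3 hp4
  refine ⟨X true, X false, hno true, hno false, fun Z h1 h2 => decode (fun q => ?_) h1 h2⟩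
  constructor
  · intro hq
    obtain ⟨t, v, h1, h2, h3⟩ := hgood (Sum.inr (Sum.inr q)) hq
    exact ⟨t, ⟨v, h1, h2⟩, ⟨v, h1, h3⟩⟩
  · rintro ⟨t, ⟨v, h1, h2⟩, ⟨w, h3, h4⟩⟩
    rw [← hfun h1 h3] at h4
    obtain ⟨q', t', h5, h6⟩ := (hG _ h1 _ h1).2 ⟨h2, h4⟩
    rw [(pr_inj h5).1]
    exact h6

end Pool.Agent.Helper425.PA
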