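import Pool.Agent.Helper425.PA.RedA
import Pool.Agent.Helper425.PA.RedB
import Pool.Agent.Helper425.PA.CutA
import Pool.Agent.Helper425.PA.CutB
import Pool.Agent.Helper425.PA.JoinA
import Pool.Agent.Helper425.PA.JoinB
import Pool.Agent.Helper425.PA.Split
import Pool.Agent.Helper425.PA.Form

/-! Turing degrees of the subsets of a model of Peano arithmetic. -/

set_option autoImplicit false
set_option linter.unusedSectionVars false

universe u

namespace Pool.Agent.Helper425.PA

section

variable {M : Type u} [CommSemiring M] [LinearOrder M] [PeanoModel M]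

lemma tred_iff {A B : Set M} : TRed A B ↔ ERed (Lit A) (Lit B) :=
  ⟨ered_of_tred, tred_of_ered⟩

lemma TRed.refl (A : Set M) : TRed A A := tred_iff.2 (ERed.refl _)

lemma TRed.trans {A B C : Set M} (h1 : TRed A B) (h2 : TRed B C) : TRed A C :=
  tred_iff.2 ((tred_iff.1 h1).trans (tred_iff.1 h2))

end

/-- The arbitrary subsets of `M`, to be ordered by Turing reducibility. -/
def Oracle (M : Type u) : Type u := Set M

/-- Oracles are preordered by Turing reducibility. -/
instance (M : Type u) [CommSemiring M] [LinearOrder M] [PeanoModel M] : Preorder (Oracle M) where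
  le A B := TRed (M := M) A B
  le_refl A := TRed.refl (M := M) A
  le_trans _ _ _ h1 h2 := TRed.trans (M := M) h1 h2

/-- The Turing degrees of the subsets of `M`: the classes of the oracles under mutual Turing
reducibility, partially ordered by Turing reducibility. -/
abbrev Degree (M : Type u) [CommSemiring M] [LinearOrder M] [PeanoModel M] : Type u :=
  Antisymmetrization (Oracle M) (· ≤ ·)

/-- The Turing degree of a subset of `M`. -/
def deg {M : Type u} [CommSemiring M] [LinearOrder M] [PeanoModel M] (A : Set M) : Degree M :=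
  toAntisymmetrization (α := Oracle M) (· ≤ ·) A

section

open Cardinal

variable {M : Type u} [CommSemiring M] [LinearOrder M] [PeanoModel M]

lemma deg_le {A B : Set M} : deg A ≤ deg B ↔ TRed A B := Iff.rfl

lemma exists_rep (d : Degree M) : ∃ A : Set M, d = deg A := by
  induction d using Antisymmetrization.ind with
  | _ A => exact ⟨A, rfl⟩

lemma joinPrime_omega (hsat : CountablySaturated M) : JoinPrime (deg (omega M)) := by
  intro x y h
  obtain ⟨X, rfl⟩ := exists_rep x
  obtain ⟨Y, rfl⟩ := exists_rep y
  have h1 := h (deg (jn X Y)) (tred_iff.2 (ered_jn_left X Y)) (tred_iff.2 (ered_jn_right X Y))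
  have h2 : ¬ SD (Lit (jn X Y)) := not_SD_of_ered (exists_nonstd hsat) (tred_iff.1 h1)
  by_cases hX : SD (Lit X)
  · by_cases hY : SD (Lit Y)
    · exact absurd (SD_jn hX hY) h2
    · exact Or.inr (tred_iff.2 (ered_of_not_SD hsat hY))
  · exact Or.inl (tred_iff.2 (ered_of_not_SD hsat hX))

lemma iio_infinite {m : M} (hm : m ∉ omega M) :
    ∃ k : M, El k = Set.Iio m ∧ (El k).Infinite := by
  obtain ⟨k, hk⟩ := exists_code (fun x => x < m) (Arith.lt (Tm.var 0) (Tm.const m)) m
    (fun x hx => hx)
  have h1 : El k = Set.Iio m := Set.ext fun x => hk x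
  refine ⟨k, h1, ?_⟩
  rw [h1]
  refine Set.infinite_of_injective_forall_mem (f := (Nat.cast : ℕ → M)) Nat.cast_injective ?_
  intro n
  exact nat_lt n hm

lemma definable_omega (hsat : CountablySaturated M)
    (hD : ∀ k : M, (El k).Infinite → #M ≤ #(El k)) :
    letI : FirstOrder.Language.order.Structure (Degree M) :=
      FirstOrder.Language.orderStructure (Degree M)
    (∅ : Set (Degree M)).Definable₁ FirstOrder.Language.order {deg (omega M)} := by
  refine definable_greatest (deg (omega M)) (joinPrime_omega hsat) ?_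
  intro d hd
  obtain ⟨A, rfl⟩ := exists_rep d
  by_contra hA
  have hκ : ∀ m : M, m ∉ omega M → #M ≤ #(Set.Iio m) := by
    intro m hm
    obtain ⟨k, h1, h2⟩ := iio_infinite hm
    rw [← h1]
    exact hD k h2
  have hM : ℵ₀ < #M := by
    obtain ⟨m, hm⟩ := exists_nonstd hsat
    obtain ⟨k, h1, h2⟩ := iio_infinite hm
    have := continuum_le_of_infinite hsat k h2
    exact Cardinal.aleph0_lt_continuum.trans_le (this.trans (Cardinal.mk_set_le _))
  obtain ⟨X, Y, hX, hY, hXY⟩ := split hsat hM hD hκ A (fun h => hA (tred_iff.2 h))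
  rcases hd (deg X) (deg Y) (fun z h1 h2 => by
    obtain ⟨Z, rfl⟩ := exists_rep z
    exact tred_iff.2 (hXY Z (tred_iff.1 h1) (tred_iff.1 h2))) with h | h
  · exact hX (tred_iff.1 h)
  · exact hY (tred_iff.1 h)

end

end Pool.Agent.Helper425.PA
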