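import Pool.Agent.Helper425.PA.Lit

/-! From Turing reductions to reductions of literals (proved by helper328) -/

set_option autoImplicit false
set_option linter.unusedSectionVars false

universe u

namespace Pool.Agent.Helper425.PA

section TARGET

open Cardinal

variable {M : Type u} [CommSemiring M] [LinearOrder M] [PeanoModel M]

/-- TARGET -/
theorem ered_of_tred {A B : Set M} (h : TRed A B) : ERed (Lit A) (Lit B) := by
  obtain ⟨W, hW, hAB⟩ := h
  refine ⟨fun q p => ∃ K1 : M, ∃ K0 : M, ∃ a : M, ∃ b : M, ∃ c : M, ∃ d : M,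
    (∀ x, Mem (x + x + 1) q → Mem x K1) ∧ (∀ x, Mem (x + x) q → Mem x K0) ∧
    W K1 1 a b ∧ W K0 0 c d ∧
    (∀ x, Mem x a → Mem (x + x + 1) p) ∧ (∀ x, Mem x b → Mem (x + x) p) ∧
    (∀ x, Mem x c → Mem (x + x + 1) p) ∧ (∀ x, Mem x d → Mem (x + x) p), ?_, fun q => ?_⟩
  · refine Sigma1.ex' (Sigma1.ex' (Sigma1.ex' (Sigma1.ex' (Sigma1.ex' (Sigma1.ex' ?_)))))
    have hodd : ∀ i j : ℕ, Delta0 (fun v : ℕ → M => ∀ x, Mem (x + x + 1) (v i) → Mem x (v j)) := by
      intro i j
      refine (Delta0.ball' (R := fun x v => Mem (x + x + 1) (v i) → Mem x (v j)) (Tm.var i)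
        ((Delta0.mem (((Tm.var 0).add (Tm.var 0)).add (Tm.const 1)) (Tm.var (i + 1))).imp
          (Delta0.mem (Tm.var 0) (Tm.var (j + 1))))).congr fun v => ?_
      constructor
      · intro H x _ hx; exact H x hx
      · intro H x hx
        refine H x (lt_of_le_of_lt ?_ hx.lt) hx
        exact (le_double x).trans le_self_add
    have heven : ∀ i j : ℕ, Delta0 (fun v : ℕ → M => ∀ x, Mem (x + x) (v i) → Mem x (v j)) := by
      intro i j
      refine (Delta0.ball' (R := fun x v => Mem (x + x) (v i) → Mem x (v j)) (Tm.var i)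
        ((Delta0.mem ((Tm.var 0).add (Tm.var 0)) (Tm.var (i + 1))).imp
          (Delta0.mem (Tm.var 0) (Tm.var (j + 1))))).congr fun v => ?_
      constructor
      · intro H x _ hx; exact H x hx
      · intro H x hx
        refine H x (lt_of_le_of_lt ?_ hx.lt) hx
        exact (le_double x)
    have hodd' : ∀ i j : ℕ, Delta0 (fun v : ℕ → M => ∀ x, Mem x (v i) → Mem (x + x + 1) (v j)) := by
      intro i j
      exact Delta0.ballMem (R := fun x v => Mem (x + x + 1) (v j)) (Tm.var i)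
        (Delta0.mem (((Tm.var 0).add (Tm.var 0)).add (Tm.const 1)) (Tm.var (j + 1)))
    have heven' : ∀ i j : ℕ, Delta0 (fun v : ℕ → M => ∀ x, Mem x (v i) → Mem (x + x) (v j)) := by
      intro i j
      exact Delta0.ballMem (R := fun x v => Mem (x + x) (v j)) (Tm.var i)
        (Delta0.mem ((Tm.var 0).add (Tm.var 0)) (Tm.var (j + 1)))
    exact (hodd 6 5).sigma1.and ((heven 6 4).sigma1.and
      ((Sigma1.sub4 hW (Tm.var 5) (Tm.const 1) (Tm.var 3) (Tm.var 2)).and
      ((Sigma1.sub4 hW (Tm.var 4) (Tm.const 0) (Tm.var 1) (Tm.var 0)).and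
      ((hodd' 3 7).sigma1.and ((heven' 2 7).sigma1.and
      ((hodd' 1 7).sigma1.and (heven' 0 7).sigma1))))))
  · constructor
    · intro hq
      obtain ⟨K1, hK1⟩ := exists_code (fun x => Mem (x + x + 1) q)
        (Arith.mem (((Tm.var 0).add (Tm.var 0)).add (Tm.const 1)) (Tm.const q)) q
        (fun x hx => lt_of_le_of_lt ((le_double x).trans le_self_add) hx.lt)
      obtain ⟨K0, hK0⟩ := exists_code (fun x => Mem (x + x) q)
        (Arith.mem ((Tm.var 0).add (Tm.var 0)) (Tm.const q)) q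
        (fun x hx => lt_of_le_of_lt (le_double x) hx.lt)
      have h1 : El K1 ⊆ A := by
        intro x hx
        exact odd_mem_lit.1 (hq ((hK1 x).1 hx))
      have h0 : El K0 ⊆ Aᶜ := by
        intro x hx
        exact even_mem_lit.1 (hq ((hK0 x).1 hx))
      obtain ⟨a, b, ha, hb, hWab⟩ := (hAB K1).1.1 h1
      obtain ⟨c, d, hc, hd, hWcd⟩ := (hAB K0).2.1 h0
      obtain ⟨p, hp⟩ := exists_code
        (fun y => (∃ x, y = x + x + 1 ∧ (Mem x a ∨ Mem x c)) ∨
          (∃ x, y = x + x ∧ (Mem x b ∨ Mem x d)))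
        ((Arith.ex' ((Arith.eq (Tm.var 1) (((Tm.var 0).add (Tm.var 0)).add (Tm.const 1))).and
          ((Arith.mem (Tm.var 0) (Tm.const a)).or (Arith.mem (Tm.var 0) (Tm.const c))))).or
          (Arith.ex' ((Arith.eq (Tm.var 1) ((Tm.var 0).add (Tm.var 0))).and
          ((Arith.mem (Tm.var 0) (Tm.const b)).or (Arith.mem (Tm.var 0) (Tm.const d))))))
        ((a + b + c + d) + (a + b + c + d) + 1 + 1) (by
          have hS : ∀ x, (Mem x a ∨ Mem x b ∨ Mem x c ∨ Mem x d) → x ≤ a + b + c + d := by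
            rintro x (hx | hx | hx | hx)
            · exact hx.lt.le.trans ((le_self_add.trans le_self_add).trans le_self_add)
            · exact hx.lt.le.trans ((le_add_self.trans le_self_add).trans le_self_add)
            · exact hx.lt.le.trans (le_add_self.trans le_self_add)
            · exact hx.lt.le.trans le_add_self
          rintro y (⟨x, rfl, hx⟩ | ⟨x, rfl, hx⟩)
          · have := hS x (by tauto)
            exact lt_succ_iff'.2 (add_le_add_left (add_le_add this this) 1)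
          · have := hS x (by tauto)
            exact lt_succ_iff'.2 ((add_le_add this this).trans le_self_add))
      refine ⟨p, ?_, K1, K0, a, b, c, d, fun x hx => (hK1 x).2 hx, fun x hx => (hK0 x).2 hx,
        hWab, hWcd, fun x hx => (hp _).2 (Or.inl ⟨x, rfl, Or.inl hx⟩),
        fun x hx => (hp _).2 (Or.inr ⟨x, rfl, Or.inl hx⟩),
        fun x hx => (hp _).2 (Or.inl ⟨x, rfl, Or.inr hx⟩),
        fun x hx => (hp _).2 (Or.inr ⟨x, rfl, Or.inr hx⟩)⟩
      intro y hy
      rcases (hp y).1 hy with ⟨x, rfl, hx | hx⟩ | ⟨x, rfl, hx | hx⟩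
      · exact odd_mem_lit.2 (ha hx)
      · exact odd_mem_lit.2 (hc hx)
      · exact even_mem_lit.2 (hb hx)
      · exact even_mem_lit.2 (hd hx)
    · rintro ⟨p, hp, K1, K0, a, b, c, d, hK1, hK0, hWab, hWcd, ha, hb, hc, hd⟩
      have h1 : El K1 ⊆ A := (hAB K1).1.2 ⟨a, b, fun x hx => odd_mem_lit.1 (hp (ha x hx)),
        fun x hx => even_mem_lit.1 (hp (hb x hx)), hWab⟩
      have h0 : El K0 ⊆ Aᶜ := (hAB K0).2.2 ⟨c, d, fun x hx => odd_mem_lit.1 (hp (hc x hx)),
        fun x hx => even_mem_lit.1 (hp (hd x hx)), hWcd⟩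
      intro y hy
      obtain ⟨x, rfl | rfl⟩ := even_or_odd y
      · exact even_mem_lit.2 (h0 (hK0 x hy))
      · exact odd_mem_lit.2 (h1 (hK1 x hy))

end TARGET

end Pool.Agent.Helper425.PA
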