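import Pool.Agent.Helper425.PA.Code

set_option autoImplicit false
set_option linter.unusedSectionVars false

universe u

namespace Pool.Agent.Helper425.PA

variable {M : Type u} [CommSemiring M] [LinearOrder M] [PeanoModel M]

/-! ### closure under quantifiers bounded by membership -/

lemma Delta0.ballMem {g : (ℕ → M) → M} {R : M → (ℕ → M) → Prop} (hg : Tm g)
    (h : Delta0 fun w => R (w 0) (fun i => w (i + 1))) :
    Delta0 fun v => ∀ x, Mem x (g v) → R x v := by
  refine (Delta0.ball' (R := fun x v => Mem x (g v) → R x v) hg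
    ((Delta0.mem (Tm.var 0) hg.tail).imp h)).congr fun v => ?_
  exact ⟨fun H x _ hx => H x hx, fun H x hx => H x hx.lt hx⟩

lemma Sigma1.imp {P Q : (ℕ → M) → Prop} (hP : Delta0 P) (hQ : Sigma1 Q) :
    Sigma1 fun v => P v → Q v :=
  (hP.not.sigma1.or hQ).congr fun v => by tauto

lemma Sigma1.ballMem {g : (ℕ → M) → M} {R : M → (ℕ → M) → Prop} (hg : Tm g)
    (h : Sigma1 fun w => R (w 0) (fun i => w (i + 1))) :
    Sigma1 fun v => ∀ x, Mem x (g v) → R x v := by
  refine (Sigma1.ball' (R := fun x v => Mem x (g v) → R x v) hg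
    (Sigma1.imp (Delta0.mem (Tm.var 0) hg.tail) h)).congr fun v => ?_
  exact ⟨fun H x _ hx => H x hx, fun H x hx => H x hx.lt hx⟩

lemma Arith.mem {f g : (ℕ → M) → M} (hf : Tm f) (hg : Tm g) :
    Arith (fun v => Mem (f v) (g v)) := (Delta0.mem hf hg).arith

lemma Arith.sub2 {R : M → M → Prop} (hR : Arith (fun v : ℕ → M => R (v 0) (v 1)))
    {f g : (ℕ → M) → M} (hf : Tm f) (hg : Tm g) : Arith (fun v => R (f v) (g v)) := by
  refine hR.subst (σ := fun i w => if i = 0 then f w else g w) fun i => ?_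
  by_cases hi : i = 0
  · simp only [hi, if_true]; exact hf
  · simp only [hi, if_false]; exact hg

lemma Sigma1.sub2 {R : M → M → Prop} (hR : Sigma1 (fun v : ℕ → M => R (v 0) (v 1)))
    {f g : (ℕ → M) → M} (hf : Tm f) (hg : Tm g) : Sigma1 (fun v => R (f v) (g v)) := by
  refine hR.subst (σ := fun i w => if i = 0 then f w else g w) fun i => ?_
  by_cases hi : i = 0
  · simp only [hi, if_true]; exact hf
  · simp only [hi, if_false]; exact hg

lemma Arith.sub1 {R : M → Prop} (hR : Arith (fun v : ℕ → M => R (v 0)))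
    {f : (ℕ → M) → M} (hf : Tm f) : Arith (fun v => R (f v)) :=
  hR.subst (σ := fun _ w => f w) fun _ => hf

lemma Sigma1.sub4 {R : M → M → M → M → Prop}
    (hR : Sigma1 (fun v : ℕ → M => R (v 0) (v 1) (v 2) (v 3)))
    {f g h l : (ℕ → M) → M} (hf : Tm f) (hg : Tm g) (hh : Tm h) (hl : Tm l) :
    Sigma1 (fun v => R (f v) (g v) (h v) (l v)) := by
  refine hR.subst (σ := fun i w => if i = 0 then f w else if i = 1 then g w else
    if i = 2 then h w else l w) fun i => ?_
  by_cases h0 : i = 0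
  · simp only [h0, if_true]; exact hf
  · by_cases h1 : i = 1
    · simp only [h1, if_true]; exact hg
    · by_cases h2 : i = 2
      · simp only [h2, if_true]; exact hh
      · simp only [h0, h1, h2, if_false]; exact hl

/-! ### the standard cut -/

lemma natCast_mem_omega (n : ℕ) : (n : M) ∈ omega M := ⟨n, rfl⟩

lemma nat_lt (n : ℕ) {b : M} (hb : b ∉ omega M) : (n : M) < b := by
  induction n with
  | zero =>
    rw [Nat.cast_zero, pos_iff_ne_zero]
    rintro rfl
    exact hb ⟨0, Nat.cast_zero⟩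
  | succ n ih =>
    rw [Nat.cast_succ]
    refine lt_of_le_of_ne (succ_le_iff'.2 ih) ?_
    intro h
    exact hb ⟨n + 1, by rw [Nat.cast_succ]; exact h⟩

lemma mem_omega_of_lt {x : M} {n : ℕ} (h : x < n) : x ∈ omega M := by
  by_contra hx
  exact absurd (nat_lt n hx) (not_lt.2 h.le)

lemma mem_omega_of_le {x y : M} (h : x ≤ y) (hy : y ∈ omega M) : x ∈ omega M := by
  obtain ⟨n, rfl⟩ := hy
  by_contra hx
  exact absurd (nat_lt n hx) (not_lt.2 h)

lemma overspill (hns : ∃ m : M, m ∉ omega M) {P : M → Prop}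
    (hP : Arith (fun v : ℕ → M => P (v 0))) (h : ∀ n : ℕ, P n) : ∃ m : M, m ∉ omega M ∧ P m := by
  by_contra hc
  push Not at hc
  have hc' : ∀ m, P m → m ∈ omega M := fun m hm => by
    by_contra h1; exact hc m h1 hm
  have : ∀ x, P x := by
    refine PeanoModel.induction P hP ?_ ?_
    · have := h 0; rwa [Nat.cast_zero] at this
    · intro x hx
      obtain ⟨n, rfl⟩ := hc' x hx
      have := h (n + 1)
      rwa [Nat.cast_succ] at this
  obtain ⟨m, hm⟩ := hns
  exact hm (hc' m (this m))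

lemma overspill_lt {b : M} (hb : b ∉ omega M) {P : M → Prop}
    (hP : Arith (fun v : ℕ → M => P (v 0))) (h : ∀ n : ℕ, P n) :
    ∃ m : M, m ∉ omega M ∧ m < b ∧ P m := by
  refine overspill ⟨b, hb⟩ (P := fun m => m < b ∧ P m)
    ((Arith.lt (Tm.var 0) (Tm.const b)).and hP) fun n => ⟨nat_lt n hb, h n⟩

lemma underspill (hns : ∃ m : M, m ∉ omega M) {P : M → Prop}
    (hP : Arith (fun v : ℕ → M => P (v 0))) (h : ∀ m : M, m ∉ omega M → P m) :
    ∃ n : ℕ, P n := by
  by_contra hc
  push Not at hc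
  obtain ⟨m, hm, h1⟩ := overspill hns (P := fun x => ¬ P x) hP.not hc
  exact h1 (h m hm)

lemma exists_nonstd (hsat : CountablySaturated M) : ∃ m : M, m ∉ omega M := by
  obtain ⟨x, hx⟩ := hsat (fun n x => (n : M) < x)
    (fun n => Arith.lt (Tm.const (n : M)) (Tm.var 0))
    (fun n => ⟨n, fun i hi => Nat.cast_lt.2 hi⟩)
  refine ⟨x, ?_⟩
  rintro ⟨n, rfl⟩
  exact lt_irrefl _ (hx n)

/-! ### finite sets -/

lemma arith_finite {S : Set M} (hS : S.Finite) : Arith (fun v : ℕ → M => v 0 ∈ S) := by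
  induction S, hS using Set.Finite.induction_on with
  | empty => exact (Arith.const False).congr fun v => by simp
  | @insert a S _ _ ih =>
    refine ((Arith.eq (Tm.var 0) (Tm.const a)).or ih).congr fun v => ?_
    simp [Set.mem_insert_iff]

lemma exists_bound_finite {S : Set M} (hS : S.Finite) : ∃ b : M, ∀ x ∈ S, x < b := by
  induction S, hS using Set.Finite.induction_on with
  | empty => exact ⟨0, by simp⟩
  | @insert a S _ _ ih =>
    obtain ⟨b, hb⟩ := ih
    refine ⟨b + (a + 1), fun x hx => ?_⟩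
    rcases hx with rfl | hx
    · exact lt_of_lt_of_le (lt_add_one x) le_add_self
    · exact lt_of_lt_of_le (hb x hx) le_self_add

lemma exists_code_finite {S : Set M} (hS : S.Finite) : ∃ k : M, ∀ x, Mem x k ↔ x ∈ S := by
  obtain ⟨b, hb⟩ := exists_bound_finite hS
  exact exists_code _ (arith_finite hS) b hb

/-- codes of unions -/
lemma exists_code_union (k l : M) : ∃ m : M, ∀ x, Mem x m ↔ Mem x k ∨ Mem x l := by
  refine exists_code (fun x => Mem x k ∨ Mem x l)
    ((Arith.mem (Tm.var 0) (Tm.const k)).or (Arith.mem (Tm.var 0) (Tm.const l))) (k + l) ?_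
  rintro x (hx | hx)
  · exact lt_of_lt_of_le hx.lt le_self_add
  · exact lt_of_lt_of_le hx.lt le_add_self

lemma exists_code_single (a : M) : ∃ m : M, ∀ x, Mem x m ↔ x = a := by
  obtain ⟨k, hk⟩ := exists_code_finite (Set.finite_singleton a)
  exact ⟨k, fun x => by rw [hk]; rfl⟩

/-! ### sequences -/

lemma exists_seq_fin (p : ℕ → M) (n : ℕ) :
    ∃ s : M, ∀ i : ℕ, i < n → ∀ x, Mem (pr (i : M) x) s ↔ Mem x (p i) := by
  induction n with
  | zero => exact ⟨0, fun i hi => absurd hi (Nat.not_lt_zero i)⟩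
  | succ n ih =>
    obtain ⟨s, hs⟩ := ih
    obtain ⟨t, ht⟩ := exists_code
      (fun y => (Mem y s ∧ ¬ ∃ x, y = pr (n : M) x) ∨ ∃ x, y = pr (n : M) x ∧ Mem x (p n))
      (((Arith.mem (Tm.var 0) (Tm.const s)).and
        (Arith.ex' (Arith.eq (Tm.var 1) ((Tm.const (n : M)).pr (Tm.var 0)))).not).or
        (Arith.ex' ((Arith.eq (Tm.var 1) ((Tm.const (n : M)).pr (Tm.var 0))).and
          (Arith.mem (Tm.var 0) (Tm.const (p n)))))) (s + (pr (n : M) (p n) + 1)) (by
        rintro y (⟨hy, _⟩ | ⟨x, rfl, hx⟩)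
        · exact lt_of_lt_of_le hy.lt le_self_add
        · refine lt_of_lt_of_le (lt_succ_iff'.2 ?_) le_add_self
          have := hx.lt.le
          unfold pr
          gcongr)
    refine ⟨t, fun i hi x => ?_⟩
    rw [ht]
    rcases Nat.lt_succ_iff_lt_or_eq.1 hi with h | rfl
    · have hne : ∀ x', ¬ pr (i : M) x = pr (n : M) x' := by
        intro x' he
        have := Nat.cast_injective (pr_inj he).1
        omega
      rw [← hs i h x]
      constructor
      · rintro (⟨h1, _⟩ | ⟨x', h1, _⟩)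
        · exact h1
        · exact absurd h1 (hne x')
      · intro h1
        exact Or.inl ⟨h1, fun ⟨x', h2⟩ => hne x' h2⟩
    · constructor
      · rintro (⟨_, h1⟩ | ⟨x', h1, h2⟩)
        · exact absurd ⟨x, rfl⟩ h1
        · rw [(pr_inj h1).2]; exact h2
      · intro h1; exact Or.inr ⟨x, rfl, h1⟩

/-- every sequence of codes indexed by the standard numbers is coded -/
lemma exists_seq (hsat : CountablySaturated M) (p : ℕ → M) :
    ∃ s : M, ∀ (n : ℕ) (x : M), Mem (pr (n : M) x) s ↔ Mem x (p n) := by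
  refine hsat (fun n s => ∀ x, Mem (pr (n : M) x) s ↔ Mem x (p n)) (fun n => ?_) fun n => ?_
  · exact Arith.all' ((Arith.mem ((Tm.const (n : M)).pr (Tm.var 0)) (Tm.var 1)).iff
      (Arith.mem (Tm.var 0) (Tm.const (p n))))
  · obtain ⟨s, hs⟩ := exists_seq_fin p n
    exact ⟨s, fun i hi x => hs i hi x⟩

/-- an increasing sequence of codes extends to a coded increasing sequence of nonstandard
length -/
lemma exists_seq_mono (hsat : CountablySaturated M) (p : ℕ → M)
    (hp : ∀ i j : ℕ, i ≤ j → ∀ x, Mem x (p i) → Mem x (p j)) :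
    ∃ s b : M, b ∉ omega M ∧ (∀ (n : ℕ) (x : M), Mem (pr (n : M) x) s ↔ Mem x (p n)) ∧
      ∀ i j, i ≤ j → j < b → ∀ x, Mem (pr i x) s → Mem (pr j x) s := by
  obtain ⟨s, hs⟩ := exists_seq hsat p
  obtain ⟨b, hb, h⟩ := overspill (exists_nonstd hsat)
    (P := fun b => ∀ j, j < b → ∀ i, i ≤ j → ∀ x, Mem (pr i x) s → Mem (pr j x) s)
    (Arith.all' ((Arith.lt (Tm.var 0) (Tm.var 1)).imp (Arith.all' ((Arith.le (Tm.var 0)
      (Tm.var 1)).imp (Arith.all' ((Arith.mem ((Tm.var 1).pr (Tm.var 0)) (Tm.const s)).imp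
        (Arith.mem ((Tm.var 2).pr (Tm.var 0)) (Tm.const s)))))))) (by
      intro n j hj i hij x hx
      obtain ⟨j', rfl⟩ := mem_omega_of_lt hj
      obtain ⟨i', rfl⟩ := mem_omega_of_le hij (natCast_mem_omega j')
      rw [hs] at hx ⊢
      exact hp i' j' (Nat.cast_le.1 hij) x hx)
  exact ⟨s, b, hb, hs, fun i j hij hj x hx => h j hj i hij x hx⟩

end Pool.Agent.Helper425.PA
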